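import Pool.Agent.H42.Pack.Check

set_option autoImplicit false

/-!
# Canonical form of a pair of rows
-/

namespace Pool.Agent.H42.Pack

open Finset Function

/-- A row as a tuple. -/
def row (p : Fin 4 → ℕ) : Row := (p 0, p 1, p 2, p 3)

def mapRow (f : ℕ → ℕ) (p : Row) : Row := (f p.1, f p.2.1, f p.2.2.1, f p.2.2.2)

lemma rk_map {f : ℕ → ℕ} (hf : Injective f) (p q : Row) : rk (mapRow f p) (mapRow f q) = rk p q := by
  simp only [rk, mapRow, hf.eq_iff]

lemma rk_le (p q : Row) : rk p q ≤ 3 := by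
  unfold rk
  simp only
  cases ((decide (q.1 = p.2.1) && decide (q.2.1 = p.2.2.1) && decide (q.2.2.1 = p.1)) || (decide (q.1 = p.2.2.1) && decide (q.2.2.1 = p.2.1) && decide (q.2.1 = p.1)) || (decide (q.1 = p.2.1) && decide (q.2.1 = p.2.2.2) && decide (q.2.2.2 = p.1)) || (decide (q.1 = p.2.2.2) && decide (q.2.2.2 = p.2.1) && decide (q.2.1 = p.1)) ||
      (decide (q.1 = p.2.2.1) && decide (q.2.2.1 = p.2.2.2) && decide (q.2.2.2 = p.1)) || (decide (q.1 = p.2.2.2) && decide (q.2.2.2 = p.2.2.1) && decide (q.2.2.1 = p.1)) || (decide (q.2.1 = p.2.2.1) && decide (q.2.2.1 = p.2.2.2) && decide (q.2.2.2 = p.2.1)) || (decide (q.2.1 = p.2.2.2) && decide (q.2.2.2 = p.2.2.1) && decide (q.2.2.1 = p.2.1)))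
  · simp only [cond_false]
    cases (Nat.ble _ 1 || Nat.beq _ _)
    · simp
    · simp
  · simp

/-- Relabelling of the colours to a canonical pattern. -/
lemma canon (p q : Fin 4 → ℕ) (hp : Injective p) (hq : Injective q) (h : ∀ i, p i ≠ q i) :
    ∃ (f : ℕ → ℕ) (q0 : Fin 4 → ℕ), Injective f ∧ (∀ i : Fin 4, p i = f i) ∧
      (∀ i, q i = f (q0 i)) ∧ (∀ i : Fin 4, (q0 i < 4 ∧ q0 i ≠ i) ∨ q0 i = 4 + i) ∧
      Injective q0 := by
  classical
  obtain ⟨M, hM⟩ : ∃ M, ∀ i, p i < M ∧ q i < M := by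
    refine ⟨(∑ i, p i) + (∑ i, q i) + 1, fun i => ?_⟩
    have h1 : p i ≤ ∑ i, p i := Finset.single_le_sum (fun _ _ => Nat.zero_le _) (Finset.mem_univ i)
    have h2 : q i ≤ ∑ i, q i := Finset.single_le_sum (fun _ _ => Nat.zero_le _) (Finset.mem_univ i)
    omega
  let f : ℕ → ℕ := fun m =>
    if h : m < 4 then p ⟨m, h⟩ else
      if h' : ∃ (h2 : m - 4 < 4), ∀ j, p j ≠ q ⟨m - 4, h2⟩ then q ⟨m - 4, h'.choose⟩ else M + m
  have f1 : ∀ i : Fin 4, f i = p i := by
    intro i
    simp only [f, i.isLt, dif_pos, Fin.eta]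
  have f2 : ∀ i : Fin 4, (∀ j, p j ≠ q i) → f (4 + i) = q i := by
    intro i hi
    have h1 : ¬ (4 + (i : ℕ) < 4) := by omega
    have h2 : 4 + (i : ℕ) - 4 = i := by omega
    have h3 : ∃ (h2 : 4 + (i : ℕ) - 4 < 4), ∀ j, p j ≠ q ⟨4 + (i : ℕ) - 4, h2⟩ := by
      refine ⟨by omega, ?_⟩
      intro j
      have : (⟨4 + (i : ℕ) - 4, by omega⟩ : Fin 4) = i := Fin.ext h2
      rw [this]; exact hi j
    simp only [f, h1, dif_neg, not_false_iff]
    rw [dif_pos h3]
    congr 1
    exact Fin.ext h2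
  have fcase : ∀ m : ℕ, (∃ i : Fin 4, m = (i : ℕ) ∧ f m = p i) ∨
      (∃ i : Fin 4, m = 4 + (i : ℕ) ∧ (∀ j, p j ≠ q i) ∧ f m = q i) ∨ f m = M + m := by
    intro m
    by_cases h1 : m < 4
    · left
      exact ⟨⟨m, h1⟩, rfl, f1 ⟨m, h1⟩⟩
    · right
      by_cases h3 : ∃ (h2 : m - 4 < 4), ∀ j, p j ≠ q ⟨m - 4, h2⟩
      · left
        obtain ⟨h4, h5⟩ := h3
        refine ⟨⟨m - 4, h4⟩, by simp; omega, h5, ?_⟩
        have h6 := f2 ⟨m - 4, h4⟩ h5
        have h7 : 4 + (m - 4) = m := by omega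
        simp only [h7] at h6
        exact h6
      · right
        simp only [f, h1, h3, dif_neg, not_false_iff]
  have finj : Injective f := by
    intro a b hab
    rcases fcase a with ⟨i, ha, ha'⟩ | ⟨i, ha, hai, ha'⟩ | ha' <;>
    rcases fcase b with ⟨j, hb, hb'⟩ | ⟨j, hb, hbj, hb'⟩ | hb'
    · have := hp (ha'.symm.trans (hab.trans hb'))
      rw [ha, hb, this]
    · exact absurd (ha'.symm.trans (hab.trans hb')) (hbj i)
    · have := (hM i).1
      omega
    · exact absurd (hb'.symm.trans (hab.symm.trans ha')) (hai j)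
    · have := hq (ha'.symm.trans (hab.trans hb'))
      rw [ha, hb, this]
    · have := (hM i).2
      omega
    · have := (hM j).1
      omega
    · have := (hM j).2
      omega
    · omega
  have hq0 : ∀ i, ∃ m : ℕ, q i = f m ∧ ((m < 4 ∧ m ≠ i) ∨ m = 4 + i) := by
    intro i
    by_cases h1 : ∀ j, p j ≠ q i
    · exact ⟨4 + i, (f2 i h1).symm, Or.inr rfl⟩
    · push Not at h1
      obtain ⟨j, hj⟩ := h1
      refine ⟨j, by rw [f1, hj], Or.inl ⟨j.isLt, ?_⟩⟩
      intro hji
      have : j = i := Fin.ext hji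
      rw [this] at hj
      exact h i hj
  choose q0 hq1 hq2 using hq0
  refine ⟨f, q0, finj, fun i => (f1 i).symm, hq1, hq2, ?_⟩
  intro i j hij
  apply hq
  rw [hq1 i, hq1 j, hij]

lemma perms4_mem {a b c d : ℕ} (x : Fin 4 → ℕ) (hx : Injective x)
    (h : ∀ i, x i = a ∨ x i = b ∨ x i = c ∨ x i = d) : row x ∈ perms4 a b c d := by
  have h01 : x 0 ≠ x 1 := fun e => by simpa using hx e
  have h02 : x 0 ≠ x 2 := fun e => by simpa using hx e
  have h03 : x 0 ≠ x 3 := fun e => by simpa using hx e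
  have h12 : x 1 ≠ x 2 := fun e => by simpa using hx e
  have h13 : x 1 ≠ x 3 := fun e => by simpa using hx e
  have h23 : x 2 ≠ x 3 := fun e => by simpa using hx e
  rcases h 0 with e0 | e0 | e0 | e0 <;> rcases h 1 with e1 | e1 | e1 | e1 <;>
    first
    | exact absurd (e0.trans e1.symm) h01
    | (rcases h 2 with e2 | e2 | e2 | e2 <;>
        first
        | exact absurd (e0.trans e2.symm) h02
        | exact absurd (e1.trans e2.symm) h12
        | (rcases h 3 with e3 | e3 | e3 | e3 <;>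
            first
            | exact absurd (e0.trans e3.symm) h03
            | exact absurd (e1.trans e3.symm) h13
            | exact absurd (e2.trans e3.symm) h23
            | (simp only [row, e0, e1, e2, e3, perms4, List.mem_cons, true_or, or_true])))

end Pool.Agent.H42.Pack
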