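import Mathlib

set_option autoImplicit false

/-!
# The finite check behind the lower bound
-/

namespace Pool.Agent.H42.Pack

/-- Four colours, one for each of the four indices. -/
abbrev Row := Nat × Nat × Nat × Nat

/-- Rank of a pair of rows: `1` if the colours of the first row are permuted along a 3-cycle, `3` if
at most one colour is shared or the shared colours are exchanged in pairs, `2` otherwise. -/
def rk (p q : Row) : Nat :=
  let e01 := decide (q.1 = p.2.1)
  let e02 := decide (q.1 = p.2.2.1)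
  let e03 := decide (q.1 = p.2.2.2)
  let e10 := decide (q.2.1 = p.1)
  let e12 := decide (q.2.1 = p.2.2.1)
  let e13 := decide (q.2.1 = p.2.2.2)
  let e20 := decide (q.2.2.1 = p.1)
  let e21 := decide (q.2.2.1 = p.2.1)
  let e23 := decide (q.2.2.1 = p.2.2.2)
  let e30 := decide (q.2.2.2 = p.1)
  let e31 := decide (q.2.2.2 = p.2.1)
  let e32 := decide (q.2.2.2 = p.2.2.1)
  bif (e01 && e12 && e20) || (e02 && e21 && e10) || (e01 && e13 && e30) || (e03 && e31 && e10) ||
      (e02 && e23 && e30) || (e03 && e32 && e20) || (e12 && e23 && e31) || (e13 && e32 && e21)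
  then 1
  else
    let A := e01.toNat + e02.toNat + e03.toNat + e10.toNat + e12.toNat + e13.toNat + e20.toNat +
      e21.toNat + e23.toNat + e30.toNat + e31.toNat + e32.toNat
    let T := (e01 && e10).toNat + (e02 && e20).toNat + (e03 && e30).toNat + (e12 && e21).toNat +
      (e13 && e31).toNat + (e23 && e32).toNat
    bif Nat.ble A 1 || Nat.beq A (2 * T) then 3 else 2

/-- No conflict and rank above `r`. -/
def okp (r : Nat) (p q : Row) : Bool :=
  !(Nat.beq p.1 q.1) && !(Nat.beq p.2.1 q.2.1) && !(Nat.beq p.2.2.1 q.2.2.1) &&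
    !(Nat.beq p.2.2.2 q.2.2.2) && Nat.blt r (rk p q)

/-- The orders of four colours. -/
def perms4 (a b c d : Nat) : List Row :=
  [(a, b, c, d), (a, b, d, c), (a, c, b, d), (a, c, d, b), (a, d, b, c), (a, d, c, b), (b, a, c,
   d), (b, a, d, c), (b, c, a, d), (b, c, d, a), (b, d, a, c), (b, d, c, a), (c, a, b, d), (c,
   a, d, b), (c, b, a, d), (c, b, d, a), (c, d, a, b), (c, d, b, a), (d, a, b, c), (d, a, c, b),
   (d, b, a, c), (d, b, c, a), (d, c, a, b), (d, c, b, a)]

/-- The orders of the four base-8 digits of `m`. -/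
def permsOf (m : Nat) : List Row :=
  perms4 (m % 8) (m / 8 % 8) (m / 64 % 8) (m / 512)

/-- The four base-8 digits are distinct. -/
def dist4 (m : Nat) : Bool :=
  !(Nat.beq (m % 8) (m / 8 % 8)) && !(Nat.beq (m % 8) (m / 64 % 8)) &&
  !(Nat.beq (m % 8) (m / 512)) && !(Nat.beq (m / 8 % 8) (m / 64 % 8)) &&
  !(Nat.beq (m / 8 % 8) (m / 512)) && !(Nat.beq (m / 64 % 8) (m / 512))

/-- For each pattern (first entry, base 8) the lists of the three new vertices. -/
def tab : List (Nat × Nat × Nat × Nat) :=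
  [(1217, 1672, 1672, 2184), (3777, 3720, 3792, 3793), (1409, 3272, 3280, 3281), (3969, 1672, 1672,
   1672), (3601, 1672, 1672, 1672), (209, 3720, 1672, 3784), (3793, 3720, 1672, 3720), (401,
   3720, 3784, 3976), (3985, 3720, 1672, 3720), (1049, 3720, 1672, 3784), (3609, 3720, 1672,
   3720), (409, 1672, 1672, 1672), (1433, 3272, 1672, 3272), (3993, 3720, 3784, 3281), (1065,
   3720, 3784, 3912), (3625, 3720, 1672, 3720), (233, 3720, 1672, 3784), (1257, 2696, 1672,
   2760), (3817, 2696, 2696, 2760), (425, 3720, 2696, 3784), (1449, 2696, 2760, 3400), (4009,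
   3720, 3720, 3720), (3650, 3720, 1672, 1672), (706, 3720, 1672, 3784), (3778, 3720, 1672,
   3720), (898, 3720, 3784, 3976), (3970, 3720, 1672, 3720), (538, 3720, 3720, 3720), (3610,
   3720, 3784, 3793), (90, 3720, 1672, 3792), (3674, 3720, 1672, 3720), (410, 3720, 1672, 3792),
   (922, 3272, 3208, 3280), (3994, 3208, 3208, 3280), (554, 2760, 1672, 2769), (3626, 3720,
   3720, 3720), (106, 3720, 3792, 3920), (3690, 3720, 1672, 3720), (234, 1672, 1672, 1672),
   (746, 3272, 1672, 3281), (3818, 3720, 3792, 2769), (426, 3720, 3208, 3792), (938, 3208, 3280,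
   3408), (4010, 3720, 3720, 3720), (1091, 3720, 1672, 3784), (3651, 3720, 1672, 3720), (899,
   1672, 1672, 1672), (1411, 3272, 1672, 3272), (3971, 3720, 3784, 3280), (531, 3720, 1672,
   3792), (3603, 3720, 1672, 3720), (83, 3720, 3720, 3720), (3667, 3720, 3784, 3792), (403,
   3272, 3208, 3281), (915, 3720, 1672, 3793), (3987, 3208, 3208, 3281), (555, 3272, 3280,
   3416), (1067, 1672, 1672, 1672), (3627, 3720, 2760, 3792), (107, 2696, 1672, 2769), (1131,
   3720, 1672, 3793), (3691, 2696, 2696, 2769), (427, 3720, 3720, 3720), (939, 3272, 1672,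
   3272), (1451, 3272, 3280, 2769), (4011, 3720, 3720, 3720), (1092, 3720, 3784, 3848), (3652,
   3720, 1672, 3720), (708, 3720, 1672, 3784), (1220, 2184, 1672, 2248), (3780, 2184, 2184,
   2248), (900, 3720, 2184, 3784), (1412, 2184, 2248, 3336), (3972, 3720, 3720, 3720), (532,
   3720, 3792, 3856), (3604, 3720, 1672, 3720), (84, 2248, 1672, 2256), (3668, 3720, 3720,
   3720), (212, 3272, 1672, 3280), (724, 1672, 1672, 1672), (3796, 3720, 2256, 3793), (404,
   3208, 3281, 3345), (916, 3720, 3208, 3793), (3988, 3720, 3720, 3720), (540, 2184, 1672,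
   2256), (1052, 3720, 1672, 3792), (3612, 2184, 2184, 2256), (92, 3272, 3280, 3352), (1116,
   1672, 1672, 1672), (3676, 3720, 2248, 3793), (412, 3272, 1672, 3272), (924, 3720, 3720,
   3720), (1436, 3272, 2256, 3281), (3996, 3720, 3720, 3720), (556, 2184, 2256, 2832), (1068,
   3720, 2184, 3792), (3628, 3720, 3720, 3720), (108, 2696, 2769, 2833), (1132, 3720, 2696,
   3793), (3692, 3720, 3720, 3720), (236, 3272, 2248, 3280), (748, 3272, 2760, 3281), (1260,
   3720, 3720, 3720), (3820, 3720, 3720, 3720), (428, 3720, 3720, 3720), (940, 3720, 3720,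
   3720), (1452, 3720, 3720, 3720), (4012, 3720, 3720, 3720)]

/-- No admissible row for a new vertex joined to three vertices with rows `p q x`. -/
def noRow (r : Nat) (p q x : Row) (l : List Row) : Bool :=
  l.all fun y => !(okp r p y && okp r q y && okp r x y)

/-- The gadget with lists `lx ly lz` kills the pattern `q`. -/
def chkG (q : Row) (lx ly lz : Nat) : Bool :=
  dist4 lx && dist4 ly && dist4 lz &&
  (permsOf lx).all fun x => !(okp (rk (0, 1, 2, 3) q - 1) (0, 1, 2, 3) x &&
      okp (rk (0, 1, 2, 3) q - 1) q x) ||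
    noRow (rk (0, 1, 2, 3) q - 1) (0, 1, 2, 3) q x (permsOf ly) ||
    noRow (rk (0, 1, 2, 3) q - 1) (0, 1, 2, 3) q x (permsOf lz)

/-- Look up the gadget of the pattern with code `m`. -/
def look (m : Nat) : List (Nat × Nat × Nat × Nat) → Nat × Nat × Nat
  | [] => (0, 0, 0)
  | e :: l => bif Nat.beq e.1 m then e.2 else look m l

def codeOf (q : Row) : Nat := q.1 + 8 * q.2.1 + 64 * q.2.2.1 + 512 * q.2.2.2

def chkQ (q : Row) : Bool :=
  chkG q (look (codeOf q) tab).1 (look (codeOf q) tab).2.1 (look (codeOf q) tab).2.2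

/-- All patterns. -/
def chkAll : Bool :=
  [1, 2, 3, 4].all fun a => [0, 2, 3, 5].all fun b => [0, 1, 3, 6].all fun c =>
    [0, 1, 2, 7].all fun d => (Nat.beq a b || Nat.beq a c || Nat.beq a d || Nat.beq b c ||
      Nat.beq b d || Nat.beq c d) || chkQ (a, b, c, d)

theorem chkAll_true : chkAll = true := by decide +kernel

end Pool.Agent.H42.Pack
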