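import Mathlib

set_option autoImplicit false

/-!
# Extending a packing over a clique by one vertex
-/

namespace Pool.Agent.H42.Pack

open Finset Function

/-- On the `t` indices in `S`, every vertex of `T` uses exactly the `t` colours in `D`. -/
def Block {V : Type*} {k : ℕ} (t : ℕ) (c : V → Fin k → ℕ) (T : Finset V) : Prop :=
  ∃ S : Finset (Fin k), ∃ D : Finset ℕ, S.card = t ∧ D.card = t ∧ ∀ u ∈ T, S.image (c u) = D

variable {V : Type*} [DecidableEq V]

/-- Hall's condition holds when the clique carries no block. -/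
lemma exists_base {t k : ℕ} (hk : k + 1 = 2 * t) (Q : Finset V) (hQ : Q.card ≤ t)
    (c : V → Fin k → ℕ) (hinj : ∀ u ∈ Q, Injective (c u))
    (hblk : Q.card = t → ¬ Block t c Q) (L : Finset ℕ) (hL : L.card = k) :
    ∃ w : Fin k → ℕ, Injective w ∧ (∀ i, w i ∈ L) ∧ ∀ u ∈ Q, ∀ i, w i ≠ c u i := by
  classical
  let N : Fin k → Finset ℕ := fun i => L \ Q.image (fun u => c u i)
  have key : ∃ f : Fin k → ℕ, Injective f ∧ ∀ i, f i ∈ N i := by
    rw [← Finset.all_card_le_biUnion_card_iff_exists_injective]
    intro s
    by_contra hs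
    push Not at hs
    have hsne : s.Nonempty := by
      rw [Finset.nonempty_iff_ne_empty]
      rintro rfl
      simp at hs
    have hcardN : ∀ i, t ≤ (N i).card + 1 := by
      intro i
      have h1 : L.card - (Q.image (fun u => c u i)).card ≤ (N i).card :=
        Finset.le_card_sdiff _ _
      have h2 : (Q.image (fun u => c u i)).card ≤ Q.card := Finset.card_image_le
      omega
    obtain ⟨i0, hi0⟩ := hsne
    have hbi : (N i0).card ≤ (s.biUnion N).card :=
      Finset.card_le_card (Finset.subset_biUnion_of_mem N hi0)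
    have hst : t ≤ s.card := by
      have := hcardN i0
      omega
    have hsk : s.card ≤ k := by
      have := Finset.card_le_univ s
      simpa using this
    set D := L \ s.biUnion N with hD
    have hDcard : k + 1 ≤ D.card + s.card := by
      have h1 : L.card - (s.biUnion N).card ≤ D.card := Finset.le_card_sdiff _ _
      omega
    have hDN : ∀ i ∈ s, D ⊆ Q.image (fun u => c u i) := by
      intro i hi d hd
      rw [hD, Finset.mem_sdiff] at hd
      by_contra hcon
      apply hd.2
      rw [Finset.mem_biUnion]
      exact ⟨i, hi, Finset.mem_sdiff.2 ⟨hd.1, hcon⟩⟩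
    have hDne : D.Nonempty := by
      rw [← Finset.card_pos]; omega
    obtain ⟨d0, hd0⟩ := hDne
    have hsQ : s.card ≤ Q.card := by
      have hch : ∀ i ∈ s, ∃ u, u ∈ Q ∧ c u i = d0 := by
        intro i hi
        have := hDN i hi hd0
        rw [Finset.mem_image] at this
        exact this
      have : Nonempty V := ⟨(hch i0 hi0).choose⟩
      choose! g hg using hch
      apply Finset.card_le_card_of_injOn g (fun i hi => (hg i hi).1)
      intro i hi j hj hij
      have h1 := (hg i hi).2
      have h2 := (hg j hj).2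
      rw [← hij] at h2
      exact hinj _ (hg i hi).1 (h1.trans h2.symm)
    have hsc : s.card = t := by omega
    have hQc : Q.card = t := by omega
    have hDc : D.card = t := by
      have h1 : D.card ≤ (Q.image (fun u => c u i0)).card := Finset.card_le_card (hDN i0 hi0)
      have h2 : (Q.image (fun u => c u i0)).card ≤ Q.card := Finset.card_image_le
      omega
    apply hblk hQc
    refine ⟨s, D, hsc, hDc, ?_⟩
    intro u hu
    apply Finset.eq_of_subset_of_card_le
    · intro d hd
      rw [Finset.mem_image] at hd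
      obtain ⟨i, hi, rfl⟩ := hd
      have h1 : D = Q.image (fun u => c u i) := by
        apply Finset.eq_of_subset_of_card_le (hDN i hi)
        have h2 : (Q.image (fun u => c u i)).card ≤ Q.card := Finset.card_image_le
        omega
      rw [h1]
      exact Finset.mem_image_of_mem (fun u => c u i) hu
    · rw [Finset.card_image_of_injective _ (hinj u hu)]
      omega
  obtain ⟨f, hf, hfN⟩ := key
  refine ⟨f, hf, fun i => (Finset.mem_sdiff.1 (hfN i)).1, ?_⟩
  intro u hu i h
  apply (Finset.mem_sdiff.1 (hfN i)).2
  rw [Finset.mem_image]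
  exact ⟨u, hu, h.symm⟩

/-- Two sets of rows on which an injective function has images `D`, `D'`. -/
lemma image_inter_eq {k : ℕ} {f : Fin k → ℕ} (hf : Injective f) {S S' : Finset (Fin k)}
    {D D' : Finset ℕ} (h : S.image f = D) (h' : S'.image f = D') :
    (S ∩ S').image f = D ∩ D' := by
  rw [← h, ← h', Finset.image_inter _ _ hf]

/-- The extension step. -/
lemma exists_ext {t k : ℕ} (ht : 3 ≤ t) (hk : k + 1 = 2 * t) (Q : Finset V) (hQ : Q.card ≤ t)
    (c : V → Fin k → ℕ) (hinj : ∀ u ∈ Q, Injective (c u))
    (hconf : ∀ u ∈ Q, ∀ u' ∈ Q, u ≠ u' → ∀ i, c u i ≠ c u' i)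
    (hblk : Q.card = t → ¬ Block t c Q) (L : Finset ℕ) (hL : L.card = k) :
    ∃ w : Fin k → ℕ, Injective w ∧ (∀ i, w i ∈ L) ∧ (∀ u ∈ Q, ∀ i, w i ≠ c u i) ∧
      ∀ T ⊆ Q, T.card + 1 = t → ∀ (S : Finset (Fin k)) (D : Finset ℕ), S.card = t → D.card = t →
        (∀ u ∈ T, S.image (c u) = D) → S.image w ≠ D := by
  classical
  obtain ⟨w, hwi, hwL, hwc⟩ := exists_base hk Q hQ c hinj hblk L hL
  by_cases hthr : ∃ T ⊆ Q, T.card + 1 = t ∧ ∃ (S : Finset (Fin k)) (D : Finset ℕ), S.card = t ∧
      D.card = t ∧ (∀ u ∈ T, S.image (c u) = D) ∧ S.image w = D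
  swap
  · refine ⟨w, hwi, hwL, hwc, ?_⟩
    intro T hTQ hT S D hS hD hu hw
    exact hthr ⟨T, hTQ, hT, S, D, hS, hD, hu, hw⟩
  obtain ⟨T, hTQ, hT, S, D, hS, hD, hTD, hwD⟩ := hthr
  -- a row outside `S`
  have hex : ∃ i', i' ∉ S := by
    by_contra hcon
    push Not at hcon
    have : S = univ := Finset.eq_univ_iff_forall.2 hcon
    rw [this] at hS
    simp at hS
    omega
  obtain ⟨i', hi'⟩ := hex
  -- a good row in `S`
  have hex2 : ∃ i ∈ S, ∀ u ∈ Q, u ∉ T → c u i ≠ w i' ∧ c u i' ≠ w i := by
    have hsd : (Q \ T).card ≤ 1 := by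
      rw [Finset.card_sdiff_of_subset hTQ]; omega
    by_cases he : (Q \ T).Nonempty
    · obtain ⟨u0, hu0⟩ := he
      have huniq : ∀ u ∈ Q, u ∉ T → u = u0 := by
        intro u hu hut
        exact Finset.card_le_one.1 hsd u (Finset.mem_sdiff.2 ⟨hu, hut⟩) u0 hu0
      have hu0Q : u0 ∈ Q := (Finset.mem_sdiff.1 hu0).1
      have hA : (S.filter (fun i => c u0 i = w i')).card ≤ 1 := by
        rw [Finset.card_le_one]
        intro a ha b hb
        rw [Finset.mem_filter] at ha hb
        exact hinj u0 hu0Q (ha.2.trans hb.2.symm)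
      have hB : (S.filter (fun i => c u0 i' = w i)).card ≤ 1 := by
        rw [Finset.card_le_one]
        intro a ha b hb
        rw [Finset.mem_filter] at ha hb
        exact hwi (ha.2.symm.trans hb.2)
      have hne : (S \ (S.filter (fun i => c u0 i = w i') ∪
          S.filter (fun i => c u0 i' = w i))).Nonempty := by
        rw [← Finset.card_pos]
        have h1 := Finset.le_card_sdiff (S.filter (fun i => c u0 i = w i') ∪
          S.filter (fun i => c u0 i' = w i)) S
        have h2 := Finset.card_union_le (S.filter (fun i => c u0 i = w i'))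
          (S.filter (fun i => c u0 i' = w i))
        omega
      obtain ⟨i, hi⟩ := hne
      rw [Finset.mem_sdiff, Finset.mem_union, Finset.mem_filter, Finset.mem_filter] at hi
      push Not at hi
      refine ⟨i, hi.1, ?_⟩
      intro u hu hut
      rw [huniq u hu hut]
      exact ⟨hi.2.1 hi.1, hi.2.2 hi.1⟩
    · rw [Finset.not_nonempty_iff_eq_empty, Finset.sdiff_eq_empty_iff_subset] at he
      have hSne : S.Nonempty := by rw [← Finset.card_pos]; omega
      obtain ⟨i, hi⟩ := hSne
      exact ⟨i, hi, fun u hu hut => absurd (he hu) hut⟩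
  obtain ⟨i, hi, hgood⟩ := hex2
  have hii' : i ≠ i' := fun h => hi' (h ▸ hi)
  have hw'D : w i' ∉ D := by
    rw [← hwD, Finset.mem_image]
    rintro ⟨s, hs, he⟩
    exact hi' (hwi he ▸ hs)
  have hwiD : w i ∈ D := by rw [← hwD]; exact Finset.mem_image_of_mem w hi
  let w' : Fin k → ℕ := fun x => w (Equiv.swap i i' x)
  have hw'i : w' i = w i' := by simp [w']
  have hw'i' : w' i' = w i := by simp [w']
  have hw'o : ∀ x, x ≠ i → x ≠ i' → w' x = w x := by
    intro x h1 h2
    simp [w', Equiv.swap_apply_of_ne_of_ne h1 h2]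
  have hw'inj : Injective w' := hwi.comp (Equiv.injective _)
  refine ⟨w', hw'inj, fun x => hwL _, ?_, ?_⟩
  · intro u hu x
    by_cases hxi : x = i
    · subst hxi
      rw [hw'i]
      by_cases hut : u ∈ T
      · intro h
        apply hw'D
        rw [h, ← hTD u hut]
        exact Finset.mem_image_of_mem _ hi
      · exact fun h => (hgood u hu hut).1 h.symm
    by_cases hxi' : x = i'
    · subst hxi'
      rw [hw'i']
      by_cases hut : u ∈ T
      · intro h
        have h1 := hwiD
        rw [h, ← hTD u hut, Finset.mem_image] at h1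
        obtain ⟨s, hs, he⟩ := h1
        exact hi' (hinj u hu he ▸ hs)
      · exact fun h => (hgood u hu hut).2 h.symm
    rw [hw'o x hxi hxi']
    exact hwc u hu x
  · intro T' hT'Q hT' S' D' hS' hD' hT'D hw'D'
    -- the common vertices
    have hU : t ≤ (T ∩ T').card + 2 := by
      have h1 := Finset.card_union_add_card_inter T T'
      have h2 : (T ∪ T').card ≤ Q.card := Finset.card_le_card (Finset.union_subset hTQ hT'Q)
      omega
    obtain ⟨u1, hu1⟩ : (T ∩ T').Nonempty := by rw [← Finset.card_pos]; omega
    have hu1T := (Finset.mem_inter.1 hu1).1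
    have hu1T' := (Finset.mem_inter.1 hu1).2
    have hAD : ∀ u ∈ T ∩ T', (S ∩ S').image (c u) = D ∩ D' := by
      intro u hu
      exact image_inter_eq (hinj u (hTQ (Finset.mem_inter.1 hu).1)) (hTD u (Finset.mem_inter.1 hu).1)
        (hT'D u (Finset.mem_inter.1 hu).2)
    have hcard : (S ∩ S').card = (D ∩ D').card := by
      rw [← hAD u1 hu1, Finset.card_image_of_injective _ (hinj u1 (hTQ hu1T))]
    have hAne : (S ∩ S').Nonempty := by
      rw [← Finset.card_pos]
      have h1 := Finset.card_union_add_card_inter S S'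
      have h2 : (S ∪ S').card ≤ k := by
        have := Finset.card_le_univ (S ∪ S')
        simpa using this
      omega
    have hAle : (S ∩ S').card ≤ t := by
      rw [← hS]; exact Finset.card_le_card Finset.inter_subset_left
    -- the two sets of rows cannot be equal
    have hnot : (S ∩ S').card ≠ t := by
      intro h
      have h1 : S ∩ S' = S := Finset.eq_of_subset_of_card_le Finset.inter_subset_left (by omega)
      have h2 : D ∩ D' = D' := Finset.eq_of_subset_of_card_le Finset.inter_subset_right (by omega)
      have h3 : i ∈ S' := by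
        have : i ∈ S ∩ S' := by rw [h1]; exact hi
        exact (Finset.mem_inter.1 this).2
      have h4 : w' i ∈ D' := by rw [← hw'D']; exact Finset.mem_image_of_mem w' h3
      rw [← h2, hw'i] at h4
      exact hw'D (Finset.mem_inter.1 h4).1
    -- the row outside
    have hout : (S ∩ S').card + 1 = t → ∃ s0 ∈ S, s0 ∉ S ∩ S' ∧ ∃ d0, ∀ d ∈ D, d ∉ D ∩ D' → d = d0 := by
      intro h
      have h1 : (S \ (S ∩ S')).card = 1 := by
        rw [Finset.card_sdiff_of_subset Finset.inter_subset_left]; omega
      have h2 : (D \ (D ∩ D')).card = 1 := by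
        rw [Finset.card_sdiff_of_subset Finset.inter_subset_left]; omega
      obtain ⟨s0, hs0⟩ := Finset.card_eq_one.1 h1
      obtain ⟨d0, hd0⟩ := Finset.card_eq_one.1 h2
      have h3 : s0 ∈ S \ (S ∩ S') := by rw [hs0]; simp
      rw [Finset.mem_sdiff] at h3
      refine ⟨s0, h3.1, h3.2, d0, ?_⟩
      intro d hd hd'
      have : d ∈ D \ (D ∩ D') := Finset.mem_sdiff.2 ⟨hd, hd'⟩
      rw [hd0] at this
      simpa using this
    have hcu : ∀ u ∈ T ∩ T', ∀ s0 ∈ S, s0 ∉ S ∩ S' → c u s0 ∈ D ∧ c u s0 ∉ D ∩ D' := by
      intro u hu s0 hs0 hs0'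
      constructor
      · rw [← hTD u (Finset.mem_inter.1 hu).1]
        exact Finset.mem_image_of_mem _ hs0
      · rw [← hAD u hu, Finset.mem_image]
        rintro ⟨x, hx, he⟩
        exact hs0' (hinj u (hTQ (Finset.mem_inter.1 hu).1) he ▸ hx)
    obtain ⟨a0, ha0⟩ := hAne
    have hUimg : ((T ∩ T').image (fun u => c u a0)).card = (T ∩ T').card := by
      apply Finset.card_image_of_injOn
      intro u hu u' hu' he
      by_contra hne
      exact hconf u (hTQ (Finset.mem_inter.1 hu).1) u' (hTQ (Finset.mem_inter.1 hu').1) hne a0 he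
    have hUsub : (T ∩ T').image (fun u => c u a0) ⊆ D ∩ D' := by
      intro d hd
      rw [Finset.mem_image] at hd
      obtain ⟨u, hu, rfl⟩ := hd
      rw [← hAD u hu]
      exact Finset.mem_image_of_mem _ ha0
    by_cases hTT : t ≤ (T ∩ T').card + 1
    · -- at least `t - 1` common vertices
      have h1 : (T ∩ T').card ≤ (D ∩ D').card := by
        rw [← hUimg]; exact Finset.card_le_card hUsub
      obtain ⟨s0, hs0, hs0', d0, hd0⟩ := hout (by omega)
      have h2 : 1 < (T ∩ T').card := by omega
      obtain ⟨u, hu, u', hu', hne⟩ := Finset.one_lt_card.1 h2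
      have h3 := hcu u hu s0 hs0 hs0'
      have h4 := hcu u' hu' s0 hs0 hs0'
      have h5 := hd0 _ h3.1 h3.2
      have h6 := hd0 _ h4.1 h4.2
      exact hconf u (hTQ (Finset.mem_inter.1 hu).1) u' (hTQ (Finset.mem_inter.1 hu').1) hne s0
        (h5.trans h6.symm)
    · -- exactly `t - 2` common vertices, the new function replaces the missing one
      have hwA : ∀ s ∈ S ∩ S', w s ∈ D ∩ D' := by
        intro s hs
        have hsS := (Finset.mem_inter.1 hs).1
        have hsS' := (Finset.mem_inter.1 hs).2
        refine Finset.mem_inter.2 ⟨?_, ?_⟩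
        · rw [← hwD]; exact Finset.mem_image_of_mem _ hsS
        · by_cases hsi : s = i
          · subst hsi
            by_cases hi'S' : i' ∈ S'
            · rw [← hw'i', ← hw'D']
              exact Finset.mem_image_of_mem _ hi'S'
            · exfalso
              have hsub : D ∩ D' ⊆ ((S ∩ S').erase s).image w' := by
                intro d hd
                rw [Finset.mem_inter] at hd
                have hd2 := hd.2
                rw [← hw'D', Finset.mem_image] at hd2
                obtain ⟨x, hx, rfl⟩ := hd2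
                have hxi' : x ≠ i' := fun h => hi'S' (h ▸ hx)
                have hxi : x ≠ s := by
                  rintro rfl
                  rw [hw'i] at hd
                  exact hw'D hd.1
                have hd1 := hd.1
                rw [hw'o x hxi hxi', ← hwD, Finset.mem_image] at hd1
                obtain ⟨y, hy, hyx⟩ := hd1
                have hyx' : y = x := hwi hyx
                rw [Finset.mem_image]
                exact ⟨x, Finset.mem_erase.2 ⟨hxi, Finset.mem_inter.2 ⟨hyx' ▸ hy, hx⟩⟩, rfl⟩
              have h1 := Finset.card_le_card hsub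
              have h2 : (((S ∩ S').erase s).image w').card ≤ ((S ∩ S').erase s).card :=
                Finset.card_image_le
              rw [Finset.card_erase_of_mem hs] at h2
              have h3 : 0 < (S ∩ S').card := Finset.card_pos.2 ⟨s, hs⟩
              omega
          · have hsi' : s ≠ i' := fun h => hi' (h ▸ hsS)
            rw [← hw'o s hsi hsi', ← hw'D']
            exact Finset.mem_image_of_mem _ hsS'
      have hwnot : w a0 ∉ (T ∩ T').image (fun u => c u a0) := by
        rw [Finset.mem_image]
        rintro ⟨u, hu, he⟩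
        exact hwc u (hTQ (Finset.mem_inter.1 hu).1) a0 he.symm
      have h1 : (T ∩ T').card + 1 ≤ (D ∩ D').card := by
        rw [← hUimg, ← Finset.card_insert_of_notMem hwnot]
        apply Finset.card_le_card
        rw [Finset.insert_subset_iff]
        exact ⟨hwA a0 ha0, hUsub⟩
      obtain ⟨s0, hs0, hs0', d0, hd0⟩ := hout (by omega)
      have h3 := hcu u1 hu1 s0 hs0 hs0'
      have h5 := hd0 _ h3.1 h3.2
      have hwAeq : (S ∩ S').image w = D ∩ D' := by
        apply Finset.eq_of_subset_of_card_le
        · intro d hd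
          rw [Finset.mem_image] at hd
          obtain ⟨s, hs, rfl⟩ := hd
          exact hwA s hs
        · rw [Finset.card_image_of_injective _ hwi]; omega
      have h6 : w s0 ∈ D := by rw [← hwD]; exact Finset.mem_image_of_mem _ hs0
      have h7 : w s0 ∉ D ∩ D' := by
        rw [← hwAeq, Finset.mem_image]
        rintro ⟨x, hx, he⟩
        exact hs0' (hwi he ▸ hx)
      have h8 := hd0 _ h6 h7
      exact hwc u1 (hTQ hu1T) s0 (h8.trans h5.symm)

end Pool.Agent.H42.Pack
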