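import Pool.Agent.H42.Pack.Net

set_option autoImplicit false

/-!
# Tree decompositions and the list packing number
-/

namespace Pool.Agent.H42.Pack

open Finset Function

/-- `c` is an `L`-packing of `G`: `k` proper `L`-colourings which are pairwise disjoint. -/
def IsPacking {V : Type*} {k : ℕ} (G : SimpleGraph V) (L : V → Finset ℕ) (c : Fin k → V → ℕ) :
    Prop :=
  (∀ i v, c i v ∈ L v) ∧ (∀ i u v, G.Adj u v → c i u ≠ c i v) ∧ ∀ i j v, i ≠ j → c i v ≠ c j v

/-- Every assignment of lists of exactly `k` colours to the vertices of `G` admits a packing. -/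
def Packable {V : Type*} (G : SimpleGraph V) (k : ℕ) : Prop :=
  ∀ L : V → Finset ℕ, (∀ v, (L v).card = k) → ∃ c : Fin k → V → ℕ, IsPacking G L c

/-- The list packing number: the least `k ≥ 1` such that every assignment of lists of exactly `k`
colours admits a packing. -/
noncomputable def listPackingNumber {V : Type*} (G : SimpleGraph V) : ℕ :=
  sInf {k | 1 ≤ k ∧ Packable G k}

/-- A tree decomposition of `G` of width at most `w`. -/
structure TreeDecomposition {V : Type*} (G : SimpleGraph V) (w : ℕ) where
  /-- the nodes of the tree -/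
  node : Type
  /-- there are finitely many nodes -/
  fin : Fintype node
  /-- the tree -/
  tree : SimpleGraph node
  isTree : tree.IsTree
  /-- the bags -/
  bag : node → Finset V
  /-- the two ends of every edge lie together in some bag -/
  edge : ∀ u v, G.Adj u v → ∃ i, u ∈ bag i ∧ v ∈ bag i
  /-- the nodes whose bags contain a given vertex form a (nonempty) subtree -/
  conn : ∀ v, (tree.induce {i | v ∈ bag i}).Connected
  /-- every bag has at most `w + 1` elements -/
  card_le : ∀ i, (bag i).card ≤ w + 1

/-- `G` has treewidth at most `w`. -/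
def TreewidthLE {V : Type*} (G : SimpleGraph V) (w : ℕ) : Prop := Nonempty (TreeDecomposition G w)

/-- Upper bound for graphs of treewidth at most `t`, `t ≥ 3`. -/
theorem packable_of_treewidth {t : ℕ} (ht : 3 ≤ t) {V : Type*} {G : SimpleGraph V}
    (h : TreewidthLE G t) : Packable G (2 * t - 1) := by
  classical
  obtain ⟨D⟩ := h
  intro L hL
  let _ := D.fin
  have hne : Nonempty D.node := D.isTree.connected.nonempty
  obtain ⟨n, hn⟩ : ∃ n, Fintype.card D.node = n + 1 := by
    have := Fintype.card_pos_iff.2 hne
    exact ⟨Fintype.card D.node - 1, by omega⟩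
  obtain ⟨c, hcL, hcG⟩ := good_tree ht (by omega : (2 * t - 1) + 1 = 2 * t) hL n D.node D.fin D.tree
    D.isTree D.bag (fun v => (D.conn v).preconnected) D.card_le hn
  refine ⟨fun i v => c v i, fun i v => hcL v i, ?_, ?_⟩
  · intro i u v huv
    obtain ⟨j, hu, hv⟩ := D.edge u v huv
    exact (hcG j).conf u hu v hv huv.ne i
  · intro i j v hij he
    obtain ⟨x⟩ := (D.conn v).nonempty
    exact hij ((hcG x.1).inj v x.2 he)

theorem listPackingNumber_le_of_treewidth {t : ℕ} (ht : 3 ≤ t) {V : Type*} {G : SimpleGraph V}
    (h : TreewidthLE G t) : listPackingNumber G ≤ 2 * t - 1 :=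
  Nat.sInf_le ⟨by omega, packable_of_treewidth ht h⟩

/-! ### A tree from a parent function -/

/-- The graph of a parent function. -/
def parTree (m : ℕ) (par : ℕ → ℕ) : SimpleGraph (Fin (m + 1)) where
  Adj i j := (0 < (j : ℕ) ∧ par j = i ∧ par j < j) ∨ (0 < (i : ℕ) ∧ par i = j ∧ par i < i)
  symm := ⟨fun i j h => h.symm⟩
  loopless := ⟨by
    intro i h
    rcases h with h | h <;> omega⟩

lemma parTree_isTree {m : ℕ} {par : ℕ → ℕ} (hpar : ∀ i, 0 < i → i ≤ m → par i < i) :
    (parTree m par).IsTree := by
  classical
  have hreach : ∀ k, ∀ (hk : k < m + 1), (parTree m par).Reachable 0 ⟨k, hk⟩ := by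
    intro k
    induction k using Nat.strong_induction_on with
    | _ k ih =>
      intro hk
      rcases Nat.eq_zero_or_pos k with rfl | hpos
      · exact SimpleGraph.Reachable.refl _
      · have h1 := hpar k hpos (by omega)
        refine (ih (par k) h1 (by omega)).trans ?_
        apply SimpleGraph.Adj.reachable
        exact Or.inl ⟨hpos, rfl, h1⟩
  have hconn : (parTree m par).Connected := by
    rw [SimpleGraph.connected_iff]
    exact ⟨fun a b => (hreach a.1 a.2).symm.trans (hreach b.1 b.2), ⟨0⟩⟩
  rw [SimpleGraph.isTree_iff_connected_and_card]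
  refine ⟨hconn, ?_⟩
  apply le_antisymm
  · have hsub : (parTree m par).edgeSet ⊆
        Set.range (fun i : Fin m => s(i.succ, (⟨min (par (i + 1)) m, by omega⟩ : Fin (m + 1)))) := by
      intro e he
      induction e using Sym2.ind with
      | _ x y =>
        have key : ∀ x y : Fin (m + 1), (0 < (y : ℕ) ∧ par y = x ∧ par y < y) →
            s(x, y) ∈ Set.range (fun i : Fin m => s(i.succ,
              (⟨min (par (i + 1)) m, by omega⟩ : Fin (m + 1)))) := by
          intro x y h
          refine ⟨⟨(y : ℕ) - 1, by omega⟩, ?_⟩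
          have h1 : (⟨(y : ℕ) - 1, by omega⟩ : Fin m).succ = y := by
            apply Fin.ext; simp; omega
          have h2 : (y : ℕ) - 1 + 1 = y := by omega
          simp only [h1, h2]
          rw [Sym2.eq_swap]
          congr 1
          apply Fin.ext
          simp only [h.2.1]
          omega
        have he' : (parTree m par).Adj x y := he
        rcases he' with h | h
        · exact key x y h
        · rw [Sym2.eq_swap]; exact key y x h
    have h1 : Nat.card (parTree m par).edgeSet ≤ Nat.card (Set.range (fun i : Fin m => s(i.succ,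
        (⟨min (par (i + 1)) m, by omega⟩ : Fin (m + 1))))) :=
      Nat.card_mono (Set.toFinite _) hsub
    have h2 : Nat.card (Set.range (fun i : Fin m => s(i.succ,
        (⟨min (par (i + 1)) m, by omega⟩ : Fin (m + 1))))) ≤ m := by
      have := Finite.card_range_le (fun i : Fin m => s(i.succ,
        (⟨min (par (i + 1)) m, by omega⟩ : Fin (m + 1))))
      simpa using this
    have h3 : Nat.card (Fin (m + 1)) = m + 1 := by simp
    omega
  · exact hconn.card_vert_le_card_edgeSet_add_one

/-! ### Tree decompositions of Apollonian networks -/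

/-- Recursive data of a tree decomposition. -/
structure Dec (n : ℕ) (G : SimpleGraph ℕ) (F : Finset (Finset ℕ)) (m : ℕ) (par : ℕ → ℕ)
    (bag : ℕ → Finset ℕ) : Prop where
  par_lt : ∀ i, 0 < i → i ≤ m → par i < i
  card_le : ∀ i ≤ m, (bag i).card ≤ 4
  face : ∀ f ∈ F, ∃ i ≤ m, f ⊆ bag i
  edge : ∀ u v, G.Adj u v → ∃ i ≤ m, u ∈ bag i ∧ v ∈ bag i
  top : ∀ v < n, ∃ t ≤ m, v ∈ bag t ∧ ∀ i ≤ m, v ∈ bag i → i ≠ t → 0 < i ∧ v ∈ bag (par i)
  lt : ∀ i ≤ m, ∀ x ∈ bag i, x < n

lemma Apollonian.dec {n : ℕ} {G : SimpleGraph ℕ} {F : Finset (Finset ℕ)}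
    (h : Apollonian n G F) : ∃ m par bag, Dec n G F m par bag := by
  induction h with
  | triangle =>
    refine ⟨0, fun _ => 0, fun _ => {0, 1, 2}, ?_, ?_, ?_, ?_, ?_, ?_⟩
    · intro i h1 h2; omega
    · intro i _; decide
    · intro f hf
      rw [Finset.mem_singleton] at hf
      exact ⟨0, le_refl _, by rw [hf]⟩
    · intro u v huv
      simp only [SimpleGraph.fromEdgeSet_adj, Set.mem_insert_iff, Set.mem_singleton_iff,
        Sym2.eq_iff] at huv
      refine ⟨0, le_refl _, ?_, ?_⟩
      · simp only [Finset.mem_insert, Finset.mem_singleton]; omega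
      · simp only [Finset.mem_insert, Finset.mem_singleton]; omega
    · intro v hv
      refine ⟨0, le_refl _, ?_, ?_⟩
      · simp only [Finset.mem_insert, Finset.mem_singleton]; omega
      · intro i hi _ hne; omega
    · intro i _ x hx
      simp only [Finset.mem_insert, Finset.mem_singleton] at hx
      omega
  | @stack n G F a b c h hf ih =>
    obtain ⟨m, par, bag, hD⟩ := ih
    obtain ⟨j, hj, hjf⟩ := hD.face _ hf
    have hface := h.faces _ hf
    have ha : a < n := hface.2 a (by simp)
    have hb : b < n := hface.2 b (by simp)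
    have hc : c < n := hface.2 c (by simp)
    have haj : a ∈ bag j := hjf (by simp)
    have hbj : b ∈ bag j := hjf (by simp)
    have hcj : c ∈ bag j := hjf (by simp)
    let par' := update par (m + 1) j
    let bag' := update bag (m + 1) {a, b, c, n}
    have p1 : par' (m + 1) = j := update_self _ _ _
    have p2 : ∀ i ≤ m, par' i = par i := fun i hi => update_of_ne (by omega) _ _
    have b1 : bag' (m + 1) = {a, b, c, n} := update_self _ _ _
    have b2 : ∀ i ≤ m, bag' i = bag i := fun i hi => update_of_ne (by omega) _ _
    refine ⟨m + 1, par', bag', ?_, ?_, ?_, ?_, ?_, ?_⟩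
    · intro i h1 h2
      by_cases hi : i ≤ m
      · rw [p2 i hi]; exact hD.par_lt i h1 hi
      · have : i = m + 1 := by omega
        subst this
        rw [p1]; omega
    · intro i hi
      by_cases hi' : i ≤ m
      · rw [b2 i hi']; exact hD.card_le i hi'
      · have : i = m + 1 := by omega
        subst this
        rw [b1]
        exact Finset.card_le_four
    · intro f hf'
      rw [Finset.mem_union] at hf'
      rcases hf' with hf' | hf'
      · obtain ⟨i, hi, hfi⟩ := hD.face f (Finset.mem_of_mem_erase hf')
        exact ⟨i, by omega, by rw [b2 i hi]; exact hfi⟩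
      · refine ⟨m + 1, le_refl _, ?_⟩
        rw [b1]
        simp only [Finset.mem_insert, Finset.mem_singleton] at hf'
        intro x hx
        rcases hf' with rfl | rfl | rfl <;>
        · simp only [Finset.mem_insert, Finset.mem_singleton] at hx ⊢
          tauto
    · intro u v huv
      simp only [SimpleGraph.sup_adj, SimpleGraph.fromEdgeSet_adj, Set.mem_insert_iff,
        Set.mem_singleton_iff, Sym2.eq_iff] at huv
      rcases huv with huv | huv
      · obtain ⟨i, hi, hu, hv⟩ := hD.edge u v huv
        exact ⟨i, by omega, by rw [b2 i hi]; exact ⟨hu, hv⟩⟩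
      · refine ⟨m + 1, le_refl _, ?_⟩
        rw [b1]
        simp only [Finset.mem_insert, Finset.mem_singleton]
        tauto
    · intro v hv
      by_cases hvn : v = n
      · subst hvn
        refine ⟨m + 1, le_refl _, by rw [b1]; simp, ?_⟩
        intro i hi hvi hne
        exfalso
        have hi' : i ≤ m := by omega
        rw [b2 i hi'] at hvi
        exact lt_irrefl _ (hD.lt i hi' v hvi)
      · obtain ⟨t, ht, hvt, htop⟩ := hD.top v (by omega)
        refine ⟨t, by omega, by rw [b2 t ht]; exact hvt, ?_⟩
        intro i hi hvi hne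
        by_cases hi' : i ≤ m
        · rw [b2 i hi'] at hvi
          have h1 := htop i hi' hvi hne
          have h2 := hD.par_lt i h1.1 hi'
          refine ⟨h1.1, ?_⟩
          rw [p2 i hi', b2 _ (by omega)]
          exact h1.2
        · have : i = m + 1 := by omega
          subst this
          refine ⟨by omega, ?_⟩
          rw [p1, b2 j hj]
          rw [b1] at hvi
          simp only [Finset.mem_insert, Finset.mem_singleton] at hvi
          rcases hvi with rfl | rfl | rfl | rfl
          · exact haj
          · exact hbj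
          · exact hcj
          · exact absurd rfl hvn
    · intro i hi x hx
      by_cases hi' : i ≤ m
      · rw [b2 i hi'] at hx
        have := hD.lt i hi' x hx
        omega
      · have : i = m + 1 := by omega
        subst this
        rw [b1] at hx
        simp only [Finset.mem_insert, Finset.mem_singleton] at hx
        omega

/-- The graph on `{0, …, n - 1}` given by a network. -/
def toFin (n : ℕ) (G : SimpleGraph ℕ) : SimpleGraph (Fin n) := G.comap Fin.val

lemma Apollonian.treewidth {n : ℕ} {G : SimpleGraph ℕ} {F : Finset (Finset ℕ)}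
    (h : Apollonian n G F) : TreewidthLE (toFin n G) 3 := by
  classical
  obtain ⟨m, par, bag, hD⟩ := h.dec
  refine ⟨⟨Fin (m + 1), inferInstance, parTree m par, parTree_isTree hD.par_lt,
    fun i => univ.filter fun v : Fin n => (v : ℕ) ∈ bag i, ?_, ?_, ?_⟩⟩
  · intro u v huv
    obtain ⟨i, hi, hu, hv⟩ := hD.edge u v huv
    exact ⟨⟨i, by omega⟩, by simpa using hu, by simpa using hv⟩
  · intro v
    obtain ⟨t, ht, hvt, htop⟩ := hD.top v v.isLt
    let A : Set (Fin (m + 1)) := {i | v ∈ univ.filter fun v : Fin n => (v : ℕ) ∈ bag i}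
    have memA : ∀ i : Fin (m + 1), i ∈ A ↔ (v : ℕ) ∈ bag i := by
      intro i
      show v ∈ (univ.filter fun v : Fin n => (v : ℕ) ∈ bag i) ↔ _
      simp
    have htA : (⟨t, by omega⟩ : Fin (m + 1)) ∈ A := (memA _).2 hvt
    have hreach : ∀ k, ∀ (hk : k < m + 1) (hkA : (⟨k, hk⟩ : Fin (m + 1)) ∈ A),
        ((parTree m par).induce A).Reachable ⟨⟨t, by omega⟩, htA⟩ ⟨⟨k, hk⟩, hkA⟩ := by
      intro k
      induction k using Nat.strong_induction_on with
      | _ k ih =>
        intro hk hkA
        by_cases hkt : k = t
        · subst hkt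
          exact SimpleGraph.Reachable.refl _
        · have h1 := htop k (by omega) ((memA _).1 hkA) hkt
          have h2 := hD.par_lt k h1.1 (by omega)
          have h3 : (⟨par k, by omega⟩ : Fin (m + 1)) ∈ A := (memA _).2 h1.2
          refine (ih (par k) h2 (by omega) h3).trans ?_
          apply SimpleGraph.Adj.reachable
          exact Or.inl ⟨h1.1, rfl, h2⟩
    show ((parTree m par).induce A).Connected
    rw [SimpleGraph.connected_iff]
    exact ⟨fun a b => (hreach a.1.1 a.1.2 a.2).symm.trans (hreach b.1.1 b.1.2 b.2), ⟨⟨_, htA⟩⟩⟩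
  · intro i
    refine le_trans ?_ (hD.card_le i (by omega))
    apply Finset.card_le_card_of_injOn Fin.val
    · intro v hv
      simpa using hv
    · intro a _ b _ hab
      exact Fin.ext hab

end Pool.Agent.H42.Pack
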