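import Pool.Agent.H42.Pack.Net
import Pool.Agent.H42.Pack.Canon

set_option autoImplicit false

/-!
# An Apollonian network whose list packing number exceeds four
-/

namespace Pool.Agent.H42.Pack

open Finset Function

lemma rk_pos (p q : Row) : 0 < rk p q := by
  unfold rk
  simp only
  cases ((decide (q.1 = p.2.1) && decide (q.2.1 = p.2.2.1) && decide (q.2.2.1 = p.1)) || (decide (q.1 = p.2.2.1) && decide (q.2.2.1 = p.2.1) && decide (q.2.1 = p.1)) || (decide (q.1 = p.2.1) && decide (q.2.1 = p.2.2.2) && decide (q.2.2.2 = p.1)) || (decide (q.1 = p.2.2.2) && decide (q.2.2.2 = p.2.1) && decide (q.2.1 = p.1)) ||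
      (decide (q.1 = p.2.2.1) && decide (q.2.2.1 = p.2.2.2) && decide (q.2.2.2 = p.1)) || (decide (q.1 = p.2.2.2) && decide (q.2.2.2 = p.2.2.1) && decide (q.2.2.1 = p.1)) || (decide (q.2.1 = p.2.2.1) && decide (q.2.2.1 = p.2.2.2) && decide (q.2.2.2 = p.2.1)) || (decide (q.2.1 = p.2.2.2) && decide (q.2.2.2 = p.2.2.1) && decide (q.2.2.1 = p.2.1)))
  · simp only [cond_false]
    cases (Nat.ble _ 1 || Nat.beq _ _)
    · simp
    · simp
  · simp

/-- Three new vertices on an edge. -/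
lemma Apollonian.gadget {n : ℕ} {G : SimpleGraph ℕ} {F : Finset (Finset ℕ)}
    (h : Apollonian n G F) {u v : ℕ} (huv : G.Adj u v) :
    ∃ (G' : SimpleGraph ℕ) (F' : Finset (Finset ℕ)), Apollonian (n + 3) G' F' ∧ G ≤ G' ∧
      G'.Adj u n ∧ G'.Adj v n ∧ G'.Adj u (n + 1) ∧ G'.Adj v (n + 1) ∧ G'.Adj n (n + 1) ∧
      G'.Adj u (n + 2) ∧ G'.Adj v (n + 2) ∧ G'.Adj (n + 1) (n + 2) := by
  obtain ⟨w, hw⟩ := h.edge_face u v huv
  have hlt := h.adj_lt u v huv
  have h1 := h.stack hw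
  have f1 : ({u, v, n} : Finset ℕ) ∈
      (F.erase {u, v, w} ∪ {{u, v, n}, {v, w, n}, {u, w, n}}) := by simp
  have h2 := h1.stack f1
  have f2 : ({u, v, n + 1} : Finset ℕ) ∈
      ((F.erase {u, v, w} ∪ {{u, v, n}, {v, w, n}, {u, w, n}}).erase {u, v, n} ∪
        {{u, v, n + 1}, {v, n, n + 1}, {u, n, n + 1}}) := by simp
  have h3 := h2.stack f2
  refine ⟨_, _, h3, ?_, ?_⟩
  · exact le_sup_of_le_left (le_sup_of_le_left le_sup_left)
  · simp only [SimpleGraph.sup_adj, SimpleGraph.fromEdgeSet_adj, Set.mem_insert_iff,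
      Set.mem_singleton_iff, Sym2.eq_iff]
    refine ⟨?_, ?_, ?_, ?_, ?_, ?_, ?_, ?_⟩
    · left; left; right; constructor
      · simp
      · omega
    · left; left; right; constructor
      · simp
      · omega
    · left; right; constructor
      · simp
      · omega
    · left; right; constructor
      · simp
      · omega
    · left; right; constructor
      · simp
      · omega
    · right; constructor
      · simp
      · omega
    · right; constructor
      · simp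
      · omega
    · right; constructor
      · simp
      · omega

lemma exists_row {f : ℕ → ℕ} {a b c d : ℕ} {g : Fin 4 → ℕ} (hg : Injective g)
    (h : ∀ i, g i ∈ ({f a, f b, f c, f d} : Finset ℕ)) :
    ∃ x0 : Fin 4 → ℕ, (∀ i, g i = f (x0 i)) ∧ row x0 ∈ perms4 a b c d := by
  have h1 : ∀ i, ∃ m, g i = f m ∧ (m = a ∨ m = b ∨ m = c ∨ m = d) := by
    intro i
    have := h i
    simp only [Finset.mem_insert, Finset.mem_singleton] at this
    rcases this with h | h | h | h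
    · exact ⟨a, h, Or.inl rfl⟩
    · exact ⟨b, h, Or.inr (Or.inl rfl)⟩
    · exact ⟨c, h, Or.inr (Or.inr (Or.inl rfl))⟩
    · exact ⟨d, h, Or.inr (Or.inr (Or.inr rfl))⟩
  choose x0 hx1 hx2 using h1
  refine ⟨x0, hx1, perms4_mem x0 ?_ hx2⟩
  intro i j hij
  apply hg
  rw [hx1 i, hx1 j, hij]

lemma row_map {f : ℕ → ℕ} {g x : Fin 4 → ℕ} (h : ∀ i, g i = f (x i)) :
    row g = mapRow f (row x) := by
  simp only [row, mapRow, h]

lemma okp_true {r : ℕ} {f : ℕ → ℕ} (hf : Injective f) {P Q x y : Fin 4 → ℕ}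
    (hP : ∀ i, P i = f (x i)) (hQ : ∀ i, Q i = f (y i)) (hne : ∀ i, P i ≠ Q i)
    (hr : r < rk (row P) (row Q)) : okp r (row x) (row y) = true := by
  have h1 : ∀ i, x i ≠ y i := by
    intro i hi
    apply hne i
    rw [hP, hQ, hi]
  rw [row_map hP, row_map hQ, rk_map hf] at hr
  have hb : ∀ i, Nat.beq (x i) (y i) = false := by
    intro i
    rw [Bool.eq_false_iff]
    intro h
    exact h1 i (Nat.eq_of_beq_eq_true h)
  simp only [okp, row, hb, Bool.not_false, Bool.true_and]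
  simp only [row] at hr
  rw [Nat.blt_eq]
  exact hr

/-- Lists of digits. -/
def dig (f : ℕ → ℕ) (m : ℕ) : Finset ℕ := {f (m % 8), f (m / 8 % 8), f (m / 64 % 8), f (m / 512)}

lemma dig_card {f : ℕ → ℕ} (hf : Injective f) {m : ℕ} (h : dist4 m = true) :
    (dig f m).card = 4 := by
  simp only [dist4, Bool.and_eq_true, Bool.not_eq_true'] at h
  obtain ⟨⟨⟨⟨⟨h1, h2⟩, h3⟩, h4⟩, h5⟩, h6⟩ := h
  have key : ∀ a b : ℕ, Nat.beq a b = false → f a ≠ f b := by
    intro a b hab he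
    have := hf he
    rw [this] at hab
    simp at hab
  unfold dig
  rw [Finset.card_insert_of_notMem, Finset.card_insert_of_notMem, Finset.card_insert_of_notMem,
    Finset.card_singleton]
  · rw [Finset.mem_singleton]; exact key _ _ h6
  · simp only [Finset.mem_insert, Finset.mem_singleton, not_or]
    exact ⟨key _ _ h4, key _ _ h5⟩
  · simp only [Finset.mem_insert, Finset.mem_singleton, not_or]
    exact ⟨key _ _ h1, key _ _ h2, key _ _ h3⟩

/-- The check for one pattern. -/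
lemma chk_of {q0 : Fin 4 → ℕ} (h1 : ∀ i : Fin 4, (q0 i < 4 ∧ q0 i ≠ i) ∨ q0 i = 4 + i)
    (h2 : Injective q0) : chkQ (row q0) = true := by
  have h := chkAll_true
  unfold chkAll at h
  rw [List.all_eq_true] at h
  have a0 : q0 0 ∈ [1, 2, 3, 4] := by
    have := h1 0
    simp at this ⊢
    omega
  have a1 : q0 1 ∈ [0, 2, 3, 5] := by
    have := h1 1
    simp at this ⊢
    omega
  have a2 : q0 2 ∈ [0, 1, 3, 6] := by
    have := h1 2
    simp at this ⊢
    omega
  have a3 : q0 3 ∈ [0, 1, 2, 7] := by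
    have := h1 3
    simp at this ⊢
    omega
  have h3 := h _ a0
  rw [List.all_eq_true] at h3
  have h4 := h3 _ a1
  rw [List.all_eq_true] at h4
  have h5 := h4 _ a2
  rw [List.all_eq_true] at h5
  have h6 := h5 _ a3
  have hb : ∀ i j : Fin 4, i ≠ j → Nat.beq (q0 i) (q0 j) = false := by
    intro i j hij
    rw [Bool.eq_false_iff]
    intro h
    exact hij (h2 (Nat.eq_of_beq_eq_true h))
  rw [hb 0 1 (by decide), hb 0 2 (by decide), hb 0 3 (by decide), hb 1 2 (by decide),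
    hb 1 3 (by decide), hb 2 3 (by decide)] at h6
  simpa [row] using h6

def Clean (r : ℕ) : Prop :=
  ∀ (n : ℕ) (G : SimpleGraph ℕ) (F : Finset (Finset ℕ)) (L : ℕ → Finset ℕ), Apollonian n G F →
    (∀ v, (L v).card = 4) → ∃ (n' : ℕ) (G' : SimpleGraph ℕ) (F' : Finset (Finset ℕ))
      (L' : ℕ → Finset ℕ), Apollonian n' G' F' ∧ n ≤ n' ∧ G ≤ G' ∧ (∀ v < n, L' v = L v) ∧
      (∀ v, (L' v).card = 4) ∧ ∀ c : ℕ → Fin 4 → ℕ, PackN n' G' L' c → ∀ u v, G.Adj u v →
        r < rk (row (c u)) (row (c v))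

lemma clean_zero : Clean 0 := by
  intro n G F L hA hL
  exact ⟨n, G, F, L, hA, le_refl _, le_refl _, fun _ _ => rfl, hL,
    fun c _ u v _ => rk_pos _ _⟩

lemma kill {r : ℕ} (hr : Clean r) {n : ℕ} {G : SimpleGraph ℕ} {F : Finset (Finset ℕ)}
    {L : ℕ → Finset ℕ} (hA : Apollonian n G F) (hL : ∀ v, (L v).card = 4) {u v : ℕ}
    (huv : G.Adj u v) (p q : Fin 4 → ℕ) (hpq : rk (row p) (row q) = r + 1) :
    ∃ (n' : ℕ) (G' : SimpleGraph ℕ) (F' : Finset (Finset ℕ))
      (L' : ℕ → Finset ℕ), Apollonian n' G' F' ∧ n ≤ n' ∧ G ≤ G' ∧ (∀ v < n, L' v = L v) ∧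
      (∀ v, (L' v).card = 4) ∧ ∀ c : ℕ → Fin 4 → ℕ, PackN n' G' L' c → ¬ (c u = p ∧ c v = q) := by
  have hlt := hA.adj_lt u v huv
  by_cases hval : Injective p ∧ Injective q ∧ ∀ i, p i ≠ q i
  swap
  · refine ⟨n, G, F, L, hA, le_refl _, le_refl _, fun _ _ => rfl, hL, ?_⟩
    rintro c hc ⟨rfl, rfl⟩
    exact hval ⟨(hc.1 u hlt.1).1, (hc.1 v hlt.2).1, hc.2 u v huv⟩
  obtain ⟨hp, hq, hne⟩ := hval
  obtain ⟨f, q0, hf, hpf, hqf, hq0, hq0i⟩ := canon p q hp hq hne
  have hchk := chk_of hq0 hq0i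
  obtain ⟨lx, ly, lz, hG⟩ : ∃ lx ly lz, chkG (row q0) lx ly lz = true := ⟨_, _, _, hchk⟩
  have hrk : rk (0, 1, 2, 3) (row q0) = r + 1 := by
    have h1 : row p = mapRow f (0, 1, 2, 3) := row_map (x := fun i : Fin 4 => (i : ℕ)) hpf
    rw [← hpq, h1, row_map hqf, rk_map hf]
  simp only [chkG, hrk, Nat.add_sub_cancel, Bool.and_eq_true] at hG
  obtain ⟨⟨⟨hdx, hdy⟩, hdz⟩, hall⟩ := hG
  rw [List.all_eq_true] at hall
  obtain ⟨G3, F3, hA3, hGG3, e1, e2, e3, e4, e5, e6, e7, e8⟩ := hA.gadget huv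
  let L3 : ℕ → Finset ℕ := fun m => if m = n then dig f lz else if m = n + 1 then dig f lx else
    if m = n + 2 then dig f ly else L m
  have l0 : L3 n = dig f lz := by simp [L3]
  have l1 : L3 (n + 1) = dig f lx := by simp [L3]
  have l2 : L3 (n + 2) = dig f ly := by simp [L3]
  have hL3 : ∀ m, (L3 m).card = 4 := by
    intro m
    by_cases h0 : m = n
    · rw [h0, l0]; exact dig_card hf hdz
    by_cases h1 : m = n + 1
    · rw [h1, l1]; exact dig_card hf hdx
    by_cases h2 : m = n + 2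
    · rw [h2, l2]; exact dig_card hf hdy
    simp only [L3, h0, h1, h2, if_false]
    exact hL m
  obtain ⟨n', G', F', L', hA', hn', hG', hLL', hL', hcl⟩ := hr (n + 3) G3 F3 L3 hA3 hL3
  refine ⟨n', G', F', L', hA', by omega, hGG3.trans hG', ?_, hL', ?_⟩
  · intro m hm
    rw [hLL' m (by omega)]
    simp only [L3, show m ≠ n by omega, show m ≠ n + 1 by omega, show m ≠ n + 2 by omega, if_false]
  rintro c hc ⟨hcu, hcv⟩
  have hc3 : PackN (n + 3) G3 L3 c := hc.mono hn' hG' hLL'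
  have hcl' := hcl c hc
  have hpf' : ∀ i, c u i = f (((fun i : Fin 4 => (i : ℕ)) : Fin 4 → ℕ) i) := by
    intro i; rw [hcu]; exact hpf i
  have hqf' : ∀ i, c v i = f (q0 i) := by
    intro i; rw [hcv]; exact hqf i
  have getrow : ∀ (m : ℕ) (l : ℕ), m < n + 3 → L3 m = dig f l →
      ∃ x0 : Fin 4 → ℕ, (∀ i, c m i = f (x0 i)) ∧ row x0 ∈ permsOf l := by
    intro m l hm hl
    apply exists_row (hc3.1 m hm).1
    intro i
    have := (hc3.1 m hm).2 i
    rw [hl] at this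
    exact this
  obtain ⟨x0, hx0, hx0m⟩ := getrow (n + 1) lx (by omega) l1
  obtain ⟨y0, hy0, hy0m⟩ := getrow (n + 2) ly (by omega) l2
  obtain ⟨z0, hz0, hz0m⟩ := getrow n lz (by omega) l0
  have hid : row (fun i : Fin 4 => (i : ℕ)) = (0, 1, 2, 3) := rfl
  have k1 : okp r (0, 1, 2, 3) (row x0) = true := by
    rw [← hid]; exact okp_true hf hpf' hx0 (hc3.2 _ _ e3) (hcl' _ _ e3)
  have k2 : okp r (row q0) (row x0) = true := okp_true hf hqf' hx0 (hc3.2 _ _ e4) (hcl' _ _ e4)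
  have k3 : okp r (0, 1, 2, 3) (row y0) = true := by
    rw [← hid]; exact okp_true hf hpf' hy0 (hc3.2 _ _ e6) (hcl' _ _ e6)
  have k4 : okp r (row q0) (row y0) = true := okp_true hf hqf' hy0 (hc3.2 _ _ e7) (hcl' _ _ e7)
  have k5 : okp r (row x0) (row y0) = true := okp_true hf hx0 hy0 (hc3.2 _ _ e8) (hcl' _ _ e8)
  have k6 : okp r (0, 1, 2, 3) (row z0) = true := by
    rw [← hid]; exact okp_true hf hpf' hz0 (hc3.2 _ _ e1) (hcl' _ _ e1)
  have k7 : okp r (row q0) (row z0) = true := okp_true hf hqf' hz0 (hc3.2 _ _ e2) (hcl' _ _ e2)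
  have k8 : okp r (row x0) (row z0) = true :=
    okp_true hf hx0 hz0 (hc3.2 _ _ e5.symm) (hcl' _ _ e5.symm)
  have hx := hall _ hx0m
  rw [k1, k2] at hx
  simp only [Bool.and_self, Bool.not_true, Bool.false_or, Bool.or_eq_true] at hx
  rcases hx with hx | hx
  · unfold noRow at hx
    rw [List.all_eq_true] at hx
    have := hx _ hy0m
    rw [k3, k4, k5] at this
    simp at this
  · unfold noRow at hx
    rw [List.all_eq_true] at hx
    have := hx _ hz0m
    rw [k6, k7, k8] at this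
    simp at this

lemma clean_succ {r : ℕ} (hr : Clean r) : Clean (r + 1) := by
  classical
  intro n G F L hA hL
  have key : ∀ S : Finset (ℕ × ℕ × (Fin 4 → ℕ) × (Fin 4 → ℕ)),
      ∃ (n' : ℕ) (G' : SimpleGraph ℕ) (F' : Finset (Finset ℕ))
      (L' : ℕ → Finset ℕ), Apollonian n' G' F' ∧ n ≤ n' ∧ G ≤ G' ∧ (∀ v < n, L' v = L v) ∧
      (∀ v, (L' v).card = 4) ∧ ∀ c : ℕ → Fin 4 → ℕ, PackN n' G' L' c → ∀ s ∈ S,
        G.Adj s.1 s.2.1 → rk (row s.2.2.1) (row s.2.2.2) = r + 1 →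
          ¬ (c s.1 = s.2.2.1 ∧ c s.2.1 = s.2.2.2) := by
    intro S
    induction S using Finset.induction_on with
    | empty =>
      exact ⟨n, G, F, L, hA, le_refl _, le_refl _, fun _ _ => rfl, hL,
        fun c _ s hs => by simp at hs⟩
    | insert s S hs ih =>
      obtain ⟨n1, G1, F1, L1, hA1, hn1, hG1, hLL1, hL1, hc1⟩ := ih
      by_cases hcond : G.Adj s.1 s.2.1 ∧ rk (row s.2.2.1) (row s.2.2.2) = r + 1
      · obtain ⟨n2, G2, F2, L2, hA2, hn2, hG2, hLL2, hL2, hc2⟩ :=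
          kill hr hA1 hL1 (hG1 hcond.1) s.2.2.1 s.2.2.2 hcond.2
        refine ⟨n2, G2, F2, L2, hA2, by omega, hG1.trans hG2, ?_, hL2, ?_⟩
        · intro m hm
          rw [hLL2 m (by omega), hLL1 m hm]
        · intro c hc s' hs'
          rcases Finset.mem_insert.1 hs' with rfl | hs'
          · intro _ _
            exact hc2 c hc
          · exact hc1 c (hc.mono hn2 hG2 hLL2) s' hs'
      · refine ⟨n1, G1, F1, L1, hA1, hn1, hG1, hLL1, hL1, ?_⟩
        intro c hc s' hs'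
        rcases Finset.mem_insert.1 hs' with rfl | hs'
        · intro h1 h2
          exact absurd ⟨h1, h2⟩ hcond
        · exact hc1 c hc s' hs'
  let S : Finset (ℕ × ℕ × (Fin 4 → ℕ) × (Fin 4 → ℕ)) :=
    (Finset.range n ×ˢ Finset.range n).biUnion fun uv =>
      ((Fintype.piFinset fun _ : Fin 4 => L uv.1) ×ˢ
        (Fintype.piFinset fun _ : Fin 4 => L uv.2)).image fun pq => (uv.1, uv.2, pq.1, pq.2)
  obtain ⟨n1, G1, F1, L1, hA1, hn1, hG1, hLL1, hL1, hc1⟩ := key S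
  obtain ⟨n2, G2, F2, L2, hA2, hn2, hG2, hLL2, hL2, hc2⟩ := hr n1 G1 F1 L1 hA1 hL1
  refine ⟨n2, G2, F2, L2, hA2, by omega, hG1.trans hG2, ?_, hL2, ?_⟩
  · intro m hm
    rw [hLL2 m (by omega), hLL1 m hm]
  · intro c hc u v huv
    have hlt := hA.adj_lt u v huv
    have h1 := hc2 c hc u v (hG1 huv)
    have hcn1 : PackN n1 G1 L1 c := hc.mono hn2 hG2 hLL2
    have hcn : PackN n G L c := hcn1.mono hn1 hG1 hLL1
    have hmem : (u, v, c u, c v) ∈ S := by
      simp only [S, Finset.mem_biUnion, Finset.mem_image, Finset.mem_product, Finset.mem_range,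
        Fintype.mem_piFinset]
      exact ⟨(u, v), hlt, (c u, c v), ⟨(hcn.1 u hlt.1).2, (hcn.1 v hlt.2).2⟩, rfl⟩
    have h2 := hc1 c hcn1 _ hmem huv
    by_contra hcon
    have h3 : rk (row (c u)) (row (c v)) = r + 1 := by omega
    exact h2 h3 ⟨rfl, rfl⟩

/-- An Apollonian network and lists of size four without packing. -/
theorem exists_noPack : ∃ (n : ℕ) (G : SimpleGraph ℕ) (F : Finset (Finset ℕ)) (L : ℕ → Finset ℕ),
    Apollonian n G F ∧ (∀ v, (L v).card = 4) ∧ 4 ≤ n ∧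
      (∀ u v : ℕ, u < 4 → v < 4 → u ≠ v → G.Adj u v) ∧
      ∀ c : ℕ → Fin 4 → ℕ, ¬ PackN n G L c := by
  have h3 : Clean 3 := clean_succ (clean_succ (clean_succ clean_zero))
  have hstart := Apollonian.triangle.stack (a := 0) (b := 1) (c := 2) (by simp)
  obtain ⟨n, G, F, L, hA, hn, hG, -, hL, hc⟩ := h3 _ _ _ (fun _ => Finset.range 4) hstart
    (fun _ => by simp)
  refine ⟨n, G, F, L, hA, hL, hn, ?_, ?_⟩
  · intro u v hu hv huv
    apply hG
    simp only [SimpleGraph.sup_adj, SimpleGraph.fromEdgeSet_adj, Set.mem_insert_iff,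
      Set.mem_singleton_iff, Sym2.eq_iff]
    omega
  · intro c hcc
    have h1 := hc c hcc 0 1 (by simp)
    have h2 := rk_le (row (c 0)) (row (c 1))
    omega

end Pool.Agent.H42.Pack
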