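import Pool.Agent.H42.Pack.Tree

set_option autoImplicit false

/-!
# Apollonian networks
-/

namespace Pool.Agent.H42.Pack

open Finset Function

/-- Apollonian networks (planar 3-trees) on the vertex set `{0, …, n - 1}`, with the set `F` of
their inner faces: start from a triangle, and repeatedly choose an inner face `{a, b, c}`, put a new
vertex inside it and join it to the three corners. -/
inductive Apollonian : ℕ → SimpleGraph ℕ → Finset (Finset ℕ) → Prop
  | triangle : Apollonian 3 (SimpleGraph.fromEdgeSet {s(0, 1), s(1, 2), s(0, 2)}) {{0, 1, 2}}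
  | stack {n : ℕ} {G : SimpleGraph ℕ} {F : Finset (Finset ℕ)} {a b c : ℕ}
      (h : Apollonian n G F) (hf : {a, b, c} ∈ F) :
      Apollonian (n + 1) (G ⊔ SimpleGraph.fromEdgeSet {s(a, n), s(b, n), s(c, n)})
        (F.erase {a, b, c} ∪ {{a, b, n}, {b, c, n}, {a, c, n}})

/-- Basic facts about the faces. -/
lemma Apollonian.faces {n : ℕ} {G : SimpleGraph ℕ} {F : Finset (Finset ℕ)}
    (h : Apollonian n G F) : ∀ f ∈ F, f.card = 3 ∧ ∀ x ∈ f, x < n := by
  induction h with
  | triangle =>
    intro f hf
    rw [Finset.mem_singleton] at hf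
    subst hf
    refine ⟨by decide, ?_⟩
    intro x hx
    simp only [Finset.mem_insert, Finset.mem_singleton] at hx
    omega
  | @stack n G F a b c h hf ih =>
    intro f hf'
    have habc := ih _ hf
    have hlt : ∀ x ∈ ({a, b, c} : Finset ℕ), x < n := habc.2
    have ha : a < n := hlt a (by simp)
    have hb : b < n := hlt b (by simp)
    have hc : c < n := hlt c (by simp)
    have hd := habc.1
    rw [Finset.card_eq_three] at hd
    have hne : a ≠ b ∧ b ≠ c ∧ a ≠ c := by
      refine ⟨?_, ?_, ?_⟩
      · rintro rfl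
        have h3 : ({a, a, c} : Finset ℕ).card ≤ 2 := by
          rw [Finset.insert_eq_of_mem (by simp)]; exact Finset.card_le_two
        omega
      · rintro rfl
        have h3 : ({a, b, b} : Finset ℕ).card ≤ 2 := by
          rw [Finset.insert_eq_of_mem (Finset.mem_singleton_self b)]; exact Finset.card_le_two
        omega
      · rintro rfl
        have h3 : ({a, b, a} : Finset ℕ).card ≤ 2 := by
          rw [Finset.insert_eq_of_mem (by simp)]; exact Finset.card_le_two
        omega
    rw [Finset.mem_union] at hf'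
    rcases hf' with hf' | hf'
    · have := ih f (Finset.mem_of_mem_erase hf')
      exact ⟨this.1, fun x hx => (this.2 x hx).trans (Nat.lt_succ_self n)⟩
    · simp only [Finset.mem_insert, Finset.mem_singleton] at hf'
      have key : ∀ x y : ℕ, x ≠ y → x < n → y < n → f = {x, y, n} →
          f.card = 3 ∧ ∀ z ∈ f, z < n + 1 := by
        rintro x y hxy hx hy rfl
        refine ⟨?_, ?_⟩
        · rw [Finset.card_eq_three]
          exact ⟨x, y, n, hxy, by omega, by omega, rfl⟩
        · intro z hz
          simp only [Finset.mem_insert, Finset.mem_singleton] at hz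
          omega
      rcases hf' with hf' | hf' | hf'
      · exact key a b hne.1 ha hb hf'
      · exact key b c hne.2.1 hb hc hf'
      · exact key a c hne.2.2 ha hc hf'

lemma card_insert3 {a b c : ℕ} (h : ({a, b, c} : Finset ℕ).card = 3) :
    a ≠ b ∧ b ≠ c ∧ a ≠ c := by
  refine ⟨?_, ?_, ?_⟩
  · rintro rfl
    have h3 : ({a, a, c} : Finset ℕ).card ≤ 2 := by
      rw [Finset.insert_eq_of_mem (by simp)]; exact Finset.card_le_two
    omega
  · rintro rfl
    have h3 : ({a, b, b} : Finset ℕ).card ≤ 2 := by
      rw [Finset.insert_eq_of_mem (Finset.mem_singleton_self b)]; exact Finset.card_le_two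
    omega
  · rintro rfl
    have h3 : ({a, b, a} : Finset ℕ).card ≤ 2 := by
      rw [Finset.insert_eq_of_mem (by simp)]; exact Finset.card_le_two
    omega

lemma Apollonian.adj_lt {n : ℕ} {G : SimpleGraph ℕ} {F : Finset (Finset ℕ)}
    (h : Apollonian n G F) : ∀ u v, G.Adj u v → u < n ∧ v < n := by
  induction h with
  | triangle =>
    intro u v huv
    simp only [SimpleGraph.fromEdgeSet_adj, Set.mem_insert_iff, Set.mem_singleton_iff,
      Sym2.eq_iff] at huv
    omega
  | @stack n G F a b c h hf ih =>
    intro u v huv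
    have hlt : ∀ x ∈ ({a, b, c} : Finset ℕ), x < n := (h.faces _ hf).2
    have ha : a < n := hlt a (by simp)
    have hb : b < n := hlt b (by simp)
    have hc : c < n := hlt c (by simp)
    simp only [SimpleGraph.sup_adj, SimpleGraph.fromEdgeSet_adj, Set.mem_insert_iff,
      Set.mem_singleton_iff, Sym2.eq_iff] at huv
    rcases huv with huv | huv
    · have := ih u v huv
      omega
    · omega

lemma Apollonian.pos {n : ℕ} {G : SimpleGraph ℕ} {F : Finset (Finset ℕ)}
    (h : Apollonian n G F) : 3 ≤ n := by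
  induction h with
  | triangle => exact le_refl _
  | stack h hf ih => omega

/-- Every edge lies on an inner face. -/
lemma Apollonian.edge_face {n : ℕ} {G : SimpleGraph ℕ} {F : Finset (Finset ℕ)}
    (h : Apollonian n G F) : ∀ u v, G.Adj u v → ∃ w, ({u, v, w} : Finset ℕ) ∈ F := by
  induction h with
  | triangle =>
    intro u v huv
    simp only [SimpleGraph.fromEdgeSet_adj, Set.mem_insert_iff, Set.mem_singleton_iff,
      Sym2.eq_iff] at huv
    simp only [Finset.mem_singleton]
    rcases huv.1 with (⟨rfl, rfl⟩ | ⟨rfl, rfl⟩) | (⟨rfl, rfl⟩ | ⟨rfl, rfl⟩) |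
      (⟨rfl, rfl⟩ | ⟨rfl, rfl⟩)
    · exact ⟨2, by decide⟩
    · exact ⟨2, by decide⟩
    · exact ⟨0, by decide⟩
    · exact ⟨0, by decide⟩
    · exact ⟨1, by decide⟩
    · exact ⟨1, by decide⟩
  | @stack n G F a b c h hf ih =>
    intro u v huv
    simp only [SimpleGraph.sup_adj, SimpleGraph.fromEdgeSet_adj, Set.mem_insert_iff,
      Set.mem_singleton_iff, Sym2.eq_iff] at huv
    have perm1 : ∀ x y z : ℕ, ({x, y, z} : Finset ℕ) = {y, x, z} := by
      intro x y z; ext t; simp only [Finset.mem_insert, Finset.mem_singleton]; tauto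
    rcases huv with huv | huv
    · obtain ⟨w, hw⟩ := ih u v huv
      by_cases he : ({u, v, w} : Finset ℕ) = {a, b, c}
      · refine ⟨n, ?_⟩
        have hu : u ∈ ({a, b, c} : Finset ℕ) := by rw [← he]; simp
        have hv : v ∈ ({a, b, c} : Finset ℕ) := by rw [← he]; simp
        have hne : u ≠ v := huv.ne
        simp only [Finset.mem_insert, Finset.mem_singleton] at hu hv
        rw [Finset.mem_union]
        right
        simp only [Finset.mem_insert, Finset.mem_singleton]
        rcases hu with rfl | rfl | rfl <;> rcases hv with rfl | rfl | rfl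
        · exact absurd rfl hne
        · left; rfl
        · right; right; rfl
        · left; exact perm1 _ _ _
        · exact absurd rfl hne
        · right; left; rfl
        · right; right; exact perm1 _ _ _
        · right; left; exact perm1 _ _ _
        · exact absurd rfl hne
      · refine ⟨w, ?_⟩
        rw [Finset.mem_union]
        left
        rw [Finset.mem_erase]
        exact ⟨he, hw⟩
    · have h1 : ∀ s : Finset ℕ, s = {a, b, n} →
          s ∈ (F.erase {a, b, c} ∪ {{a, b, n}, {b, c, n}, {a, c, n}}) := by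
        rintro s rfl; simp
      have h2 : ∀ s : Finset ℕ, s = {b, c, n} →
          s ∈ (F.erase {a, b, c} ∪ {{a, b, n}, {b, c, n}, {a, c, n}}) := by
        rintro s rfl; simp
      rcases huv.1 with (⟨rfl, rfl⟩ | ⟨rfl, rfl⟩) | (⟨rfl, rfl⟩ | ⟨rfl, rfl⟩) |
        (⟨rfl, rfl⟩ | ⟨rfl, rfl⟩)
      · exact ⟨b, h1 _ (by ext t; simp only [Finset.mem_insert, Finset.mem_singleton]; tauto)⟩
      · exact ⟨b, h1 _ (by ext t; simp only [Finset.mem_insert, Finset.mem_singleton]; tauto)⟩
      · exact ⟨a, h1 _ (by ext t; simp only [Finset.mem_insert, Finset.mem_singleton]; tauto)⟩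
      · exact ⟨a, h1 _ (by ext t; simp only [Finset.mem_insert, Finset.mem_singleton]; tauto)⟩
      · exact ⟨b, h2 _ (by ext t; simp only [Finset.mem_insert, Finset.mem_singleton]; tauto)⟩
      · exact ⟨b, h2 _ (by ext t; simp only [Finset.mem_insert, Finset.mem_singleton]; tauto)⟩

/-- Packings of the network on `{0, …, n - 1}` from the lists `L`. -/
def PackN {k : ℕ} (n : ℕ) (G : SimpleGraph ℕ) (L : ℕ → Finset ℕ) (c : ℕ → Fin k → ℕ) : Prop :=
  (∀ v < n, Injective (c v) ∧ ∀ i, c v i ∈ L v) ∧ ∀ u v, G.Adj u v → ∀ i, c u i ≠ c v i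

lemma PackN.mono {k n n' : ℕ} {G G' : SimpleGraph ℕ} {L L' : ℕ → Finset ℕ} {c : ℕ → Fin k → ℕ}
    (h : PackN n' G' L' c) (hn : n ≤ n') (hG : G ≤ G') (hL : ∀ v < n, L' v = L v) :
    PackN n G L c := by
  refine ⟨fun v hv => ⟨(h.1 v (by omega)).1, fun i => ?_⟩, fun u v huv => h.2 u v (hG huv)⟩
  rw [← hL v hv]
  exact (h.1 v (by omega)).2 i

end Pool.Agent.H42.Pack
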