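import Pool.Agent.H42.Pack.Core

set_option autoImplicit false

/-!
# Packings along a tree decomposition
-/

namespace Pool.Agent.H42.Pack

open Finset Function

variable {V : Type*} [DecidableEq V]

/-- The invariant on a bag: pairwise conflict-free injective rows and no block on `t` vertices. -/
structure Good {V : Type*} {k : ℕ} (t : ℕ) (c : V → Fin k → ℕ) (B : Finset V) : Prop where
  inj : ∀ u ∈ B, Injective (c u)
  conf : ∀ u ∈ B, ∀ u' ∈ B, u ≠ u' → ∀ i, c u i ≠ c u' i
  blk : ∀ T ⊆ B, T.card = t → ¬ Block t c T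

lemma Good.mono {k t : ℕ} {c : V → Fin k → ℕ} {A B : Finset V} (h : Good t c B) (hAB : A ⊆ B) :
    Good t c A :=
  ⟨fun u hu => h.inj u (hAB hu), fun u hu u' hu' => h.conf u (hAB hu) u' (hAB hu'),
    fun T hT => h.blk T (hT.trans hAB)⟩

lemma Good.congr {k t : ℕ} {c c' : V → Fin k → ℕ} {B : Finset V} (h : Good t c B)
    (hcc : ∀ u ∈ B, c' u = c u) : Good t c' B := by
  refine ⟨fun u hu => by rw [hcc u hu]; exact h.inj u hu, ?_, ?_⟩
  · intro u hu u' hu' hne i
    rw [hcc u hu, hcc u' hu']
    exact h.conf u hu u' hu' hne i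
  · rintro T hT hTc ⟨S, D, hS, hD, hSD⟩
    refine h.blk T hT hTc ⟨S, D, hS, hD, fun u hu => ?_⟩
    rw [← hcc u (hT hu)]
    exact hSD u hu

lemma good_empty {k t : ℕ} (ht : 0 < t) (c : V → Fin k → ℕ) : Good t c ∅ := by
  refine ⟨fun u hu => by simp at hu, fun u hu => by simp at hu, ?_⟩
  intro T hT hTc
  rw [Finset.subset_empty] at hT
  rw [hT] at hTc
  simp at hTc
  omega

/-- One new vertex. -/
lemma good_insert {t k : ℕ} (ht : 3 ≤ t) (hk : k + 1 = 2 * t) {Q : Finset V} (hQ : Q.card ≤ t)
    {c : V → Fin k → ℕ} (h : Good t c Q) {a : V} (ha : a ∉ Q) {L : Finset ℕ} (hL : L.card = k) :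
    ∃ w : Fin k → ℕ, (∀ i, w i ∈ L) ∧ Good t (update c a w) (insert a Q) := by
  obtain ⟨w, hwi, hwL, hwc, hwT⟩ := exists_ext ht hk Q hQ c h.inj h.conf
    (fun hc => h.blk Q (Finset.Subset.refl _) hc) L hL
  have hupd : ∀ u ∈ Q, update c a w u = c u := fun u hu =>
    update_of_ne (by rintro rfl; exact ha hu) _ _
  refine ⟨w, hwL, ?_, ?_, ?_⟩
  · intro u hu
    rcases Finset.mem_insert.1 hu with rfl | hu
    · rw [update_self]; exact hwi
    · rw [hupd u hu]; exact h.inj u hu
  · intro u hu u' hu' hne i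
    rcases Finset.mem_insert.1 hu with h1 | h1 <;> rcases Finset.mem_insert.1 hu' with h2 | h2
    · exact absurd (h1.trans h2.symm) hne
    · rw [h1, update_self, hupd u' h2]
      exact hwc u' h2 i
    · rw [h2, update_self, hupd u h1]
      exact (hwc u h1 i).symm
    · rw [hupd u h1, hupd u' h2]
      exact h.conf u h1 u' h2 hne i
  · rintro T hT hTc ⟨S, D, hS, hD, hSD⟩
    by_cases haT : a ∈ T
    · have h1 : T.erase a ⊆ Q := by
        intro x hx
        rw [Finset.mem_erase] at hx
        exact (Finset.mem_insert.1 (hT hx.2)).resolve_left hx.1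
      have h2 : (T.erase a).card + 1 = t := by
        rw [Finset.card_erase_add_one haT, hTc]
      apply hwT _ h1 h2 S D hS hD
      · intro u hu
        have h3 := hSD u (Finset.mem_of_mem_erase hu)
        rwa [hupd u (h1 hu)] at h3
      · have h3 := hSD a haT
        rwa [update_self] at h3
    · have h1 : T ⊆ Q := by
        intro x hx
        exact (Finset.mem_insert.1 (hT hx)).resolve_left (fun he => haT (he ▸ hx))
      apply h.blk T h1 hTc
      refine ⟨S, D, hS, hD, fun u hu => ?_⟩
      have h3 := hSD u hu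
      rwa [hupd u (h1 hu)] at h3

/-- Many new vertices inside one bag. -/
lemma good_extend {t k : ℕ} (ht : 3 ≤ t) (hk : k + 1 = 2 * t) {W : Finset V}
    {c : V → Fin k → ℕ} (h : Good t c W) {L : V → Finset ℕ} (hL : ∀ v, (L v).card = k) :
    ∀ X : Finset V, Disjoint X W → (X ∪ W).card ≤ t + 1 →
      ∃ c' : V → Fin k → ℕ, (∀ v, v ∉ X → c' v = c v) ∧ (∀ v ∈ X, ∀ i, c' v i ∈ L v) ∧
        Good t c' (X ∪ W) := by
  intro X
  induction X using Finset.induction_on with
  | empty =>
    intro _ _
    exact ⟨c, fun _ _ => rfl, fun v hv => by simp at hv, by simpa using h⟩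
  | insert a X haX ih =>
    intro hdis hcard
    rw [Finset.disjoint_insert_left] at hdis
    have haXW : a ∉ X ∪ W := by
      rw [Finset.mem_union]
      rintro (h1 | h1)
      · exact haX h1
      · exact hdis.1 h1
    rw [Finset.insert_union, Finset.card_insert_of_notMem haXW] at hcard
    obtain ⟨c', hc1, hc2, hc3⟩ := ih hdis.2 (by omega)
    obtain ⟨w, hwL, hw⟩ := good_insert ht hk (by omega) hc3 haXW (hL a)
    refine ⟨update c' a w, ?_, ?_, ?_⟩
    · intro v hv
      rw [Finset.mem_insert] at hv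
      push Not at hv
      rw [update_of_ne hv.1]
      exact hc1 v hv.2
    · intro v hv i
      by_cases hva : v = a
      · subst hva
        rw [update_self]; exact hwL i
      · rw [update_of_ne hva]
        exact hc2 v ((Finset.mem_insert.1 hv).resolve_left hva) i
    · rw [Finset.insert_union]
      exact hw

lemma good_bag {t k : ℕ} (ht : 3 ≤ t) (hk : k + 1 = 2 * t) {W B : Finset V} (hWB : W ⊆ B)
    (hB : B.card ≤ t + 1)
    {c : V → Fin k → ℕ} (h : Good t c W) {L : V → Finset ℕ} (hL : ∀ v, (L v).card = k) :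
      ∃ c' : V → Fin k → ℕ, (∀ v, v ∉ B \ W → c' v = c v) ∧ (∀ v ∈ B \ W, ∀ i, c' v i ∈ L v) ∧
        Good t c' B := by
  have h1 : (B \ W) ∪ W = B := by
    rw [Finset.sdiff_union_of_subset hWB]
  obtain ⟨c', h2, h3, h4⟩ := good_extend ht hk h hL (B \ W) Finset.sdiff_disjoint
    (by rw [h1]; exact hB)
  exact ⟨c', h2, h3, by rwa [h1] at h4⟩

/-- Packings along a tree of bags. -/
lemma good_tree {t k : ℕ} (ht : 3 ≤ t) (hk : k + 1 = 2 * t) {L : V → Finset ℕ}
    (hL : ∀ v, (L v).card = k) :
    ∀ (n : ℕ) (ι : Type) (_ : Fintype ι) (T : SimpleGraph ι) (_ : T.IsTree) (bag : ι → Finset V),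
      (∀ v, (T.induce {i | v ∈ bag i}).Preconnected) → (∀ i, (bag i).card ≤ t + 1) →
      Fintype.card ι = n + 1 →
      ∃ c : V → Fin k → ℕ, (∀ v i, c v i ∈ L v) ∧ ∀ j, Good t c (bag j) := by
  classical
  have base : ∃ c : V → Fin k → ℕ, ∀ v i, c v i ∈ L v := by
    have : ∀ v, ∃ f : Fin k → ℕ, ∀ i, f i ∈ L v := by
      intro v
      exact ⟨fun i => ((L v).equivFinOfCardEq (hL v)).symm i, fun i => Subtype.coe_prop _⟩
    choose c hc using this
    exact ⟨c, hc⟩
  obtain ⟨c0, hc0⟩ := base
  intro n
  induction n with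
  | zero =>
    intro ι _ T hT bag hconn hcard hn
    obtain ⟨i0, hi0⟩ := Fintype.card_eq_one_iff.1 hn
    obtain ⟨c', h1, h2, h3⟩ := good_bag ht hk (Finset.empty_subset (bag i0)) (hcard i0)
      (good_empty (by omega) c0) hL
    refine ⟨c', ?_, ?_⟩
    · intro v i
      by_cases hv : v ∈ bag i0 \ ∅
      · exact h2 v hv i
      · rw [h1 v hv]; exact hc0 v i
    · intro j
      rw [hi0 j]
      exact h3
  | succ n ih =>
    intro ι _ T hT bag hconn hcard hn
    have hnt : Nontrivial ι := Fintype.one_lt_card_iff_nontrivial.1 (by omega)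
    obtain ⟨l, hl⟩ := hT.exists_vert_degree_one_of_nontrivial
    obtain ⟨m, hlm, hm⟩ := SimpleGraph.degree_eq_one_iff_existsUnique_adj.1 hl
    have hml : m ≠ l := hlm.ne'
    -- the smaller tree
    let T' : SimpleGraph ↥({l}ᶜ : Set ι) := T.induce {l}ᶜ
    have hT' : T'.IsTree :=
      ⟨hT.connected.induce_compl_singleton_of_degree_eq_one hl, hT.isAcyclic.induce _⟩
    have hcard' : Fintype.card ↥({l}ᶜ : Set ι) = n + 1 := by
      have h1 := Fintype.card_compl_set ({l} : Set ι)
      simp only [Set.card_singleton] at h1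
      omega
    -- a vertex in the leaf bag and in another bag is in the neighbouring bag
    have hrun : ∀ v j, j ≠ l → v ∈ bag l → v ∈ bag j → v ∈ bag m := by
      intro v j hj hvl hvj
      have h1 := hconn v ⟨l, hvl⟩ ⟨j, hvj⟩
      rw [SimpleGraph.reachable_iff_reflTransGen] at h1
      rcases h1.cases_head with h2 | ⟨b, hb, -⟩
      · exact absurd (congrArg Subtype.val h2).symm hj
      · have h3 : T.Adj l b.1 := hb
        have h4 := hm b.1 h3
        have h5 := b.2
        rw [Set.mem_ofPred_eq, h4] at h5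
        exact h5
    have hconn' : ∀ v, (T'.induce {j | v ∈ bag j.1}).Preconnected := by
      intro v j1 j2
      let mk : (j : ι) → (hj : j ≠ l) → (hv : v ∈ bag j) →
          ↥{j : ↥({l}ᶜ : Set ι) | v ∈ bag j.1} := fun j hj hv =>
          ⟨⟨j, hj⟩, (show v ∈ bag j from hv)⟩
      have hreach : ∀ a : ↥{i | v ∈ bag i}, Relation.ReflTransGen
          (T.induce {i | v ∈ bag i}).Adj ⟨j1.1.1, j1.2⟩ a →
          (∀ (hal : a.1 ≠ l), (T'.induce {j | v ∈ bag j.1}).Reachable j1 (mk a.1 hal a.2)) ∧
          (a.1 = l → ∃ (hvm : v ∈ bag m),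
            (T'.induce {j | v ∈ bag j.1}).Reachable j1 (mk m hml hvm)) := by
        intro a ha
        induction ha with
        | refl =>
          exact ⟨fun _ => SimpleGraph.Reachable.refl _, fun h => absurd h j1.1.2⟩
        | @tail a b hja hab ih2 =>
          have hab' : T.Adj a.1 b.1 := hab
          constructor
          · intro hbl
            by_cases hal : a.1 = l
            · obtain ⟨hvm, hr⟩ := ih2.2 hal
              have h1 : b.1 = m := hm b.1 (hal ▸ hab')
              have h2 : mk b.1 hbl b.2 = mk m hml hvm := by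
                apply Subtype.ext; apply Subtype.ext; exact h1
              rw [h2]; exact hr
            · refine (ih2.1 hal).trans ?_
              apply SimpleGraph.Adj.reachable
              exact hab'
          · intro hbl
            have h1 : a.1 = m := hm a.1 (by rw [← hbl]; exact hab'.symm)
            have hal : a.1 ≠ l := fun h => hml (h1.symm.trans h)
            have hvm : v ∈ bag m := by
              have := a.2
              rw [Set.mem_ofPred_eq, h1] at this
              exact this
            refine ⟨hvm, ?_⟩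
            have h2 : mk a.1 hal a.2 = mk m hml hvm := by
              apply Subtype.ext; apply Subtype.ext; exact h1
            rw [← h2]; exact ih2.1 hal
      have h1 := hconn v ⟨j1.1.1, j1.2⟩ ⟨j2.1.1, j2.2⟩
      rw [SimpleGraph.reachable_iff_reflTransGen] at h1
      exact (hreach _ h1).1 j2.1.2
    obtain ⟨c, hcL, hcG⟩ := ih ↥({l}ᶜ : Set ι) inferInstance T' hT' (fun j => bag j.1) hconn'
      (fun j => hcard j.1) hcard'
    have hW : Good t c (bag l ∩ bag m) := (hcG ⟨m, hml⟩).mono Finset.inter_subset_right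
    obtain ⟨c', h1, h2, h3⟩ := good_bag ht hk Finset.inter_subset_left (hcard l) hW hL
    refine ⟨c', ?_, ?_⟩
    · intro v i
      by_cases hv : v ∈ bag l \ (bag l ∩ bag m)
      · exact h2 v hv i
      · rw [h1 v hv]; exact hcL v i
    · intro j
      by_cases hj : j = l
      · rw [hj]; exact h3
      · apply (hcG ⟨j, hj⟩).congr
        intro u hu
        apply h1
        rw [Finset.mem_sdiff, Finset.mem_inter]
        rintro ⟨hul, hum⟩
        exact hum ⟨hul, hrun u j hj hul hu⟩

end Pool.Agent.H42.Pack
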